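import Pool.Agent.H70.SD.AbelA

/-!
# The area of the disc
-/

open MeasureTheory Set Filter Topology
open scoped ENNReal

noncomputable section

namespace Pool.Agent.H70.SD

lemma ennreal_two_mul_le (a b : ℝ≥0∞) : 2 * (a * b) ≤ a ^ 2 + b ^ 2 := by
  rcases eq_or_ne a ⊤ with rfl | ha
  · simp
  rcases eq_or_ne b ⊤ with rfl | hb
  · simp
  lift a to NNReal using ha
  lift b to NNReal using hb
  have : 2 * (a * b) ≤ a ^ 2 + b ^ 2 := by rw [← mul_assoc]; exact two_mul_le_add_sq a b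
  exact_mod_cast this

lemma tendsto_rad : Tendsto rad atTop (𝓝 0) := by
  have h1 : Tendsto (fun v : ℝ => v⁻¹) atTop (𝓝 0) := tendsto_inv_atTop_zero
  refine squeeze_zero' (Eventually.of_forall fun v => (rad_pos v).le) ?_ h1
  filter_upwards [eventually_gt_atTop 0] with v hv
  have h2 := rad_mul v
  have h3 := rad_pos v
  have h4 := sqrt_pos' v
  rw [le_inv_comm₀ h3 hv]
  rw [inv_eq_one_div, le_div_iff₀ h3]
  nlinarith

lemma rad_image : rad '' Ioi 0 = Ioo 0 1 := by
  ext r
  constructor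
  · rintro ⟨v, hv, rfl⟩
    exact ⟨rad_pos v, rad_lt_one hv⟩
  · intro hr
    exact ⟨vv r, vv_pos hr.1 hr.2, rad_vv hr.1⟩

/-- polar coordinates in terms of the latitude. -/
lemma lintegral_disc {f : ℂ → ℝ≥0∞} (hf : Measurable f) :
    ∫⁻ z in Metric.ball (0 : ℂ) 1, f z =
      ∫⁻ v in Ioi (0 : ℝ), ENNReal.ofReal (rad v ^ 2 / Real.sqrt (1 + v ^ 2)) *
        ∫⁻ w in Ioo 0 (2 * Real.pi), f (pt v w) := by
  have hball : MeasurableSet (Metric.ball (0 : ℂ) 1) := measurableSet_ball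
  rw [← lintegral_indicator hball, ← Complex.lintegral_comp_polarCoord_symm]
  have e0 : (polarCoord.target : Set (ℝ × ℝ)) = Ioi 0 ×ˢ Ioo (-Real.pi) Real.pi := rfl
  have hmeas : Measurable (fun p : ℝ × ℝ => ((p.1 : ℂ) * Complex.exp (p.2 * Complex.I))) := by
    fun_prop
  have e1 : ∀ p ∈ (Ioi 0 ×ˢ Ioo (-Real.pi) Real.pi : Set (ℝ × ℝ)), ENNReal.ofReal p.1 •
      (Metric.ball (0 : ℂ) 1).indicator f (Complex.polarCoord.symm p) =
      (Ioo 0 1 ×ˢ Ioo (-Real.pi) Real.pi : Set (ℝ × ℝ)).indicator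
        (fun p => ENNReal.ofReal p.1 * f ((p.1 : ℂ) * Complex.exp (p.2 * Complex.I))) p := by
    rintro ⟨r, θ⟩ ⟨hr, hθ⟩
    simp only at hr hθ
    rw [smul_eq_mul]
    have e2 : Complex.polarCoord.symm (r, θ) = (r : ℂ) * Complex.exp (θ * Complex.I) := by
      rw [Complex.polarCoord_symm_apply, Complex.exp_mul_I]
      push_cast
      ring_nf
    rw [e2]
    have hr' : (0 : ℝ) < r := hr
    have hn : ‖(r : ℂ) * Complex.exp (θ * Complex.I)‖ = r := by
      rw [norm_mul, Complex.norm_exp_ofReal_mul_I, mul_one, Complex.norm_real, Real.norm_eq_abs,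
        abs_of_pos hr']
    by_cases h1 : r < 1
    · rw [indicator_of_mem, indicator_of_mem]
      · exact ⟨⟨hr, h1⟩, hθ⟩
      · rw [Metric.mem_ball, dist_zero_right, hn]; exact h1
    · rw [indicator_of_notMem, indicator_of_notMem, mul_zero]
      · rintro ⟨⟨_, h⟩, _⟩; exact h1 h
      · rw [Metric.mem_ball, dist_zero_right, hn]; exact h1
  have hprod : MeasurableSet (Ioo 0 1 ×ˢ Ioo (-Real.pi) Real.pi : Set (ℝ × ℝ)) :=
    measurableSet_Ioo.prod measurableSet_Ioo
  rw [e0, setLIntegral_congr_fun (measurableSet_Ioi.prod measurableSet_Ioo) e1,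
    setLIntegral_indicator hprod]
  have e3 : (Ioo 0 1 ×ˢ Ioo (-Real.pi) Real.pi : Set (ℝ × ℝ)) ∩
      (Ioi 0 ×ˢ Ioo (-Real.pi) Real.pi) = Ioo 0 1 ×ˢ Ioo (-Real.pi) Real.pi := by
    rw [inter_eq_left]
    rintro ⟨r, θ⟩ ⟨⟨h1, _⟩, h2⟩
    exact ⟨h1, h2⟩
  have hmf : Measurable (fun p : ℝ × ℝ => ENNReal.ofReal p.1 *
      f ((p.1 : ℂ) * Complex.exp (p.2 * Complex.I))) := by
    refine Measurable.mul (by fun_prop) ?_
    exact hf.comp hmeas
  rw [e3, Measure.volume_eq_prod, ← Measure.prod_restrict, lintegral_prod _ hmf.aemeasurable]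
  rw [← rad_image, lintegral_image_eq_lintegral_abs_deriv_mul
    (f' := fun v => -(rad v) / Real.sqrt (1 + v ^ 2)) measurableSet_Ioi
    (fun v _ => (hasDerivAt_rad v).hasDerivWithinAt) rad_strictAnti.injective.injOn]
  refine setLIntegral_congr_fun measurableSet_Ioi fun v hv => ?_
  have h1 := rad_pos v
  have h2 := sqrt_pos' v
  have h3 : |-(rad v) / Real.sqrt (1 + v ^ 2)| = rad v / Real.sqrt (1 + v ^ 2) := by
    rw [neg_div, abs_neg, abs_of_pos (by positivity)]
  have hm4 : Measurable (fun θ : ℝ => f ((rad v : ℂ) * Complex.exp (θ * Complex.I))) :=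
    hf.comp (by fun_prop)
  rw [h3]
  show ENNReal.ofReal (rad v / Real.sqrt (1 + v ^ 2)) * ∫⁻ y in Ioo (-Real.pi) Real.pi,
    ENNReal.ofReal (rad v) * f ((rad v : ℂ) * Complex.exp (y * Complex.I)) = _
  rw [lintegral_const_mul _ hm4, ← mul_assoc, ← ENNReal.ofReal_mul (by positivity)]
  congr 1
  · congr 1; ring
  · have hper : ∀ w, f (pt v (w + 2 * Real.pi)) = f (pt v w) := fun w => by rw [pt_add_two_pi]
    have h4 : ∫⁻ u in Ioo 0 (2 * Real.pi), f (pt v (-Real.pi + u)) =
        ∫⁻ u in Ioo 0 (2 * Real.pi), f (pt v u) :=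
      lintegral_period (g := fun w => f (pt v w)) hper (-Real.pi)
    rw [← h4]
    have h5 := (measurePreserving_add_left volume (-Real.pi)).setLIntegral_comp_emb
      (measurableEmbedding_addLeft (-Real.pi)) (fun w => f (pt v w)) (Ioo 0 (2 * Real.pi))
    have h6 : (fun x => -Real.pi + x) '' Ioo 0 (2 * Real.pi) = Ioo (-Real.pi) Real.pi := by
      rw [Set.image_const_add_Ioo]; congr 1 <;> ring
    rw [h6] at h5
    exact h5.symm

lemma rad_sq_eq (v : ℝ) : 1 + rad v ^ 2 = 2 * rad v * Real.sqrt (1 + v ^ 2) := by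
  have h1 := rad_mul v
  have h2 := sq_sqrt' v
  unfold rad at *
  nlinarith

/-- The area of the hemisphere in stereographic coordinates. -/
lemma hemisphere_area : ∫⁻ z in Metric.ball (0 : ℂ) 1, ENNReal.ofReal (2 / (1 + ‖z‖ ^ 2)) ^ 2 =
    ENNReal.ofReal (2 * Real.pi) := by
  rw [lintegral_disc (by fun_prop)]
  have hd : ∀ x ∈ Ici (0 : ℝ), HasDerivAt (fun v => v / Real.sqrt (1 + v ^ 2))
      (1 / ((1 + x ^ 2) * Real.sqrt (1 + x ^ 2))) x := by
    intro x _
    have hp := sqrt_pos' x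
    have hp2 := sq_sqrt' x
    have h1 : HasDerivAt (fun A : ℝ => Real.sqrt (1 + A ^ 2)) (2 * x / (2 * Real.sqrt (1 + x ^ 2)))
        x := by
      have := (((hasDerivAt_id x).pow 2).const_add 1).sqrt (show 1 + id x ^ 2 ≠ 0 by
        simp only [id]; positivity)
      simpa using this
    have h2 := (hasDerivAt_id x).div h1 hp.ne'
    refine h2.congr_deriv ?_
    simp only [id]
    rw [hp2]
    have : (1 + x ^ 2) ≠ 0 := by positivity
    field_simp
    nlinarith
  have hpos : ∀ x ∈ Ioi (0 : ℝ), 0 ≤ 1 / ((1 + x ^ 2) * Real.sqrt (1 + x ^ 2)) := by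
    intro x _
    have := sqrt_pos' x
    positivity
  have hlim : Tendsto (fun v : ℝ => v / Real.sqrt (1 + v ^ 2)) atTop (𝓝 1) := by
    have h1 : Tendsto (fun v : ℝ => 1 - rad v) atTop (𝓝 (1 - 0)) := tendsto_rad.const_sub 1
    rw [sub_zero] at h1
    refine tendsto_of_tendsto_of_tendsto_of_le_of_le' h1 tendsto_const_nhds ?_ ?_
    · filter_upwards [eventually_gt_atTop 0] with v hv
      have h2 := sqrt_pos' v
      have h3 : 1 ≤ Real.sqrt (1 + v ^ 2) := Real.one_le_sqrt.2 (by nlinarith [sq_nonneg v])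
      have h4 : v ≤ Real.sqrt (1 + v ^ 2) := Real.le_sqrt_of_sq_le (by simp)
      rw [le_div_iff₀ h2]
      unfold rad
      nlinarith
    · filter_upwards with v
      have h2 := sqrt_pos' v
      rw [div_le_one h2]
      exact Real.le_sqrt_of_sq_le (by simp)
  have hI : ∫⁻ v in Ioi (0 : ℝ), ENNReal.ofReal (1 / ((1 + v ^ 2) * Real.sqrt (1 + v ^ 2))) = 1 := by
    rw [← ofReal_integral_eq_lintegral_ofReal (integrableOn_Ioi_deriv_of_nonneg' hd hpos hlim),
      integral_Ioi_of_hasDerivAt_of_nonneg' hd hpos hlim]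
    · simp
    · exact (ae_restrict_iff' measurableSet_Ioi).2 (Eventually.of_forall fun x hx => hpos x hx)
  calc _ = ∫⁻ v in Ioi (0 : ℝ), ENNReal.ofReal (1 / ((1 + v ^ 2) * Real.sqrt (1 + v ^ 2))) *
        ENNReal.ofReal (2 * Real.pi) := by
        refine setLIntegral_congr_fun measurableSet_Ioi fun v _ => ?_
        have h1 := rad_pos v
        have h2 := sqrt_pos' v
        have h3 := sq_sqrt' v
        simp only [norm_pt]
        rw [setLIntegral_const, Real.volume_Ioo, sub_zero, ← mul_assoc,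
          ← ENNReal.ofReal_pow (by positivity), ← ENNReal.ofReal_mul (by positivity)]
        congr 2
        rw [rad_sq_eq]
        nth_rewrite 3 [← h3]
        field_simp
    _ = _ := by rw [lintegral_mul_const _ (by fun_prop), hI, one_mul]

/-- Module ABEL. -/
theorem abel_disc (lam : ℂ → ℝ≥0∞) (hm : Measurable lam)
    (hA : ∀ᵐ A ∂(volume.restrict (Ioi (0 : ℝ))), ENNReal.ofReal (Real.pi * Real.pi) ≤
      ∫⁻ x in Ioo 0 (Real.pi / 2), Phi lam A x) :
    ENNReal.ofReal (2 * Real.pi) ≤ ∫⁻ z in Metric.ball (0 : ℂ) 1, lam z ^ 2 := by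
  have hpi := Real.pi_pos
  set K : ℝ → ℝ≥0∞ := fun v => ENNReal.ofReal (rad v / Real.sqrt (1 + v ^ 2)) *
    ∫⁻ w in Ioo 0 (2 * Real.pi), lam (pt v w) with hK
  have hlm : Measurable (fun p : ℝ × ℝ => lam (pt p.1 p.2)) := hm.comp measurable_pt
  have hKm : Measurable K := by
    refine Measurable.mul ?_ hlm.lintegral_prod_right'
    unfold rad
    fun_prop
  have h1 : ∀ᵐ A ∂(volume.restrict (Ioi (0 : ℝ))), ENNReal.ofReal (Real.pi * Real.pi) ≤
      ENNReal.ofReal (Real.sqrt (1 + A ^ 2)) *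
      ∫⁻ x in Ioo 0 (Real.pi / 2), K (A * Real.sin x) := by
    filter_upwards [hA] with A h
    refine h.trans_eq ?_
    rw [← lintegral_const_mul]
    · refine lintegral_congr fun x => ?_
      unfold Phi
      have h2 := sqrt_pos' A
      have h3 := rad_pos (A * Real.sin x)
      have h4 := sqrt_pos' (A * Real.sin x)
      have hm5 : Measurable (fun w : ℝ => lam (pt (A * Real.sin x) w)) :=
        hlm.comp measurable_prodMk_left
      rw [lintegral_mul_const _ hm5, hK]
      simp only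
      rw [← mul_assoc, ← ENNReal.ofReal_mul h2.le, mul_comm]
      congr 2
      unfold spd
      ring
    · exact hKm.comp (by fun_prop)
  have h2 := abel_ineq hKm h1
  -- the disc integral
  set wt : ℂ → ℝ≥0∞ := fun z => ENNReal.ofReal (2 / (1 + ‖z‖ ^ 2)) with hwt
  have hwtm : Measurable wt := by unfold wt; fun_prop
  have h3 : ENNReal.ofReal (2 * Real.pi) ≤ ∫⁻ z in Metric.ball (0 : ℂ) 1, lam z * wt z := by
    rw [lintegral_disc (f := fun z => lam z * wt z) (hm.mul hwtm)]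
    have e1 : ∀ v ∈ Ioi (0 : ℝ), ENNReal.ofReal (Real.pi / (2 * Real.sqrt (1 + v ^ 2))) * K v =
        ENNReal.ofReal (Real.pi / 2) * (ENNReal.ofReal (rad v ^ 2 / Real.sqrt (1 + v ^ 2)) *
          ∫⁻ w in Ioo 0 (2 * Real.pi), lam (pt v w) * wt (pt v w)) := by
      intro v _
      have r1 := rad_pos v
      have r2 := sqrt_pos' v
      have r3 := sq_sqrt' v
      have hm5 : Measurable (fun w : ℝ => lam (pt v w)) := hlm.comp measurable_prodMk_left
      have e2 : ∀ w, lam (pt v w) * wt (pt v w) =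
          lam (pt v w) * ENNReal.ofReal (2 / (1 + rad v ^ 2)) := by
        intro w; rw [hwt]; simp only [norm_pt]
      simp only [e2]
      rw [lintegral_mul_const _ hm5, hK]
      simp only
      rw [← mul_assoc, ← ENNReal.ofReal_mul (by positivity), mul_comm (∫⁻ _ in _, _), ← mul_assoc,
        ← mul_assoc, ← ENNReal.ofReal_mul (by positivity), ← ENNReal.ofReal_mul (by positivity)]
      congr 2
      rw [rad_sq_eq]
      field_simp
    rw [setLIntegral_congr_fun measurableSet_Ioi e1, lintegral_const_mul] at h2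
    · have h4 : ENNReal.ofReal (Real.pi * Real.pi) =
          ENNReal.ofReal (Real.pi / 2) * ENNReal.ofReal (2 * Real.pi) := by
        rw [← ENNReal.ofReal_mul (by positivity)]
        congr 1; ring
      rw [h4] at h2
      rwa [ENNReal.mul_le_mul_iff_right (by simpa using hpi) ENNReal.ofReal_ne_top] at h2
    · refine Measurable.mul ?_ ?_
      · unfold rad; fun_prop
      · have : Measurable (fun p : ℝ × ℝ => lam (pt p.1 p.2) * wt (pt p.1 p.2)) :=
          (hm.mul hwtm).comp measurable_pt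
        exact this.lintegral_prod_right'
  -- the inequality between the means
  have h5 : 2 * ∫⁻ z in Metric.ball (0 : ℂ) 1, lam z * wt z ≤
      (∫⁻ z in Metric.ball (0 : ℂ) 1, lam z ^ 2) + ENNReal.ofReal (2 * Real.pi) := by
    rw [← hemisphere_area, ← lintegral_add_right _ (by fun_prop), ← lintegral_const_mul (f := fun z => lam z * wt z) _
      (hm.mul hwtm)]
    refine lintegral_mono fun z => ?_
    show 2 * (lam z * wt z) ≤ lam z ^ 2 + wt z ^ 2
    exact ennreal_two_mul_le (lam z) (wt z)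
  have h6 : 2 * ENNReal.ofReal (2 * Real.pi) ≤
      (∫⁻ z in Metric.ball (0 : ℂ) 1, lam z ^ 2) + ENNReal.ofReal (2 * Real.pi) :=
    (mul_le_mul_right h3 2).trans h5
  rw [two_mul] at h6
  exact (ENNReal.add_le_add_iff_right ENNReal.ofReal_ne_top).1 h6

/-- The conclusion for slit data. -/
theorem slit_main {X : Type*} [PseudoMetricSpace X] {S : Set ℂ} {R : Finset ℝ}
    {inn out : ℂ → X} {lam : ℂ → ℝ≥0∞} (h : SlitData Real.pi S R inn out lam) :
    ENNReal.ofReal (2 * Real.pi) ≤ ∫⁻ z in Metric.ball (0 : ℂ) 1, lam z ^ 2 := by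
  refine abel_disc lam h.meas ?_
  have h1 : ∀ᵐ A ∂(volume.restrict (Ioi (0 : ℝ))), ∀ r ∈ R, ∀ n κ : ℕ,
      rad (A * Real.sin (κ * hh n)) ≠ r := ae_restrict_of_ae (ae_generic h.rad_mem)
  have h2 : ∀ᵐ A ∂(volume.restrict (Ioi (0 : ℝ))), A ∈ Ioi (0 : ℝ) :=
    ae_restrict_mem measurableSet_Ioi
  filter_upwards [h1, h2] with A hA hA0
  exact avg_ineq h hA0 hA

end Pool.Agent.H70.SD
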