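import Pool.Agent.H70.SD.Avg

/-!
# Integration over the amplitudes
-/

open MeasureTheory Set Filter Topology
open scoped ENNReal

noncomputable section

namespace Pool.Agent.H70.SD

lemma hasDerivAt_asn {v x : ℝ} (hv : 0 < v) (hx : x ∈ Ioo 0 (Real.pi / 2)) :
    HasDerivAt (fun x => Real.arcsin (Real.sqrt (1 + v ^ 2) * Real.sin x /
      Real.sqrt (Real.sin x ^ 2 + v ^ 2)) / Real.sqrt (1 + v ^ 2))
      (v / (Real.sin x ^ 2 + v ^ 2)) x := by
  have hcos : 0 < Real.cos x := Real.cos_pos_of_mem_Ioo ⟨by linarith [hx.1, Real.pi_pos], hx.2⟩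
  set q := Real.sqrt (1 + v ^ 2) with hq
  have hq0 : 0 < q := sqrt_pos' v
  have hq2 : q ^ 2 = 1 + v ^ 2 := sq_sqrt' v
  set p := Real.sqrt (Real.sin x ^ 2 + v ^ 2) with hp
  have hpv : 0 < Real.sin x ^ 2 + v ^ 2 := by positivity
  have hp0 : 0 < p := Real.sqrt_pos.2 hpv
  have hp2 : p ^ 2 = Real.sin x ^ 2 + v ^ 2 := Real.sq_sqrt hpv.le
  have hsc := Real.sin_sq_add_cos_sq x
  have h1 : 1 - (q * Real.sin x / p) ^ 2 = (v * Real.cos x / p) ^ 2 := by
    rw [div_pow, div_pow, mul_pow, mul_pow, hq2, hp2]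
    field_simp
    linear_combination (-v ^ 2) * hsc
  have hne1 : q * Real.sin x / p ≠ 1 := by
    intro h
    rw [h] at h1
    have : 0 < v * Real.cos x / p := by positivity
    nlinarith
  have hne2 : q * Real.sin x / p ≠ -1 := by
    intro h
    rw [h] at h1
    have : 0 < v * Real.cos x / p := by positivity
    nlinarith
  have d1 : HasDerivAt (fun x => Real.sqrt (Real.sin x ^ 2 + v ^ 2))
      (2 * Real.sin x ^ (2 - 1) * Real.cos x / (2 * p)) x := by
    have := (((Real.hasDerivAt_sin x).pow 2).add_const (v ^ 2)).sqrt hpv.ne'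
    simpa using this
  have d2 : HasDerivAt (fun x => q * Real.sin x / Real.sqrt (Real.sin x ^ 2 + v ^ 2))
      (((q * Real.cos x) * p - q * Real.sin x *
        (2 * Real.sin x ^ (2 - 1) * Real.cos x / (2 * p))) / p ^ 2) x :=
    ((Real.hasDerivAt_sin x).const_mul q).div d1 hp0.ne'
  have d3 := ((Real.hasDerivAt_arcsin hne2 hne1).comp x d2).div_const q
  refine d3.congr_deriv ?_
  rw [h1, Real.sqrt_sq (by positivity)]
  have e1 : (q * Real.cos x) * p - q * Real.sin x *
        (2 * Real.sin x ^ (2 - 1) * Real.cos x / (2 * p)) = q * Real.cos x * v ^ 2 / p := by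
    field_simp
    rw [hp2]
    ring
  rw [e1, ← hp2]
  field_simp

lemma abel_inner {v : ℝ} (hv : 0 < v) :
    ∫⁻ x in Ioo 0 (Real.pi / 2), ENNReal.ofReal (v / (Real.sin x ^ 2 + v ^ 2)) =
      ENNReal.ofReal (Real.pi / (2 * Real.sqrt (1 + v ^ 2))) := by
  have hpv : ∀ x : ℝ, 0 < Real.sin x ^ 2 + v ^ 2 := fun x => by positivity
  have hcont : Continuous (fun x : ℝ => v / (Real.sin x ^ 2 + v ^ 2)) :=
    continuous_const.div (by fun_prop) (fun x => (hpv x).ne')
  have hq0 := sqrt_pos' v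
  rw [restrict_Ioo_eq_restrict_Ioc, ← ofReal_integral_eq_lintegral_ofReal,
    ← intervalIntegral.integral_of_le (by positivity)]
  · congr 1
    rw [intervalIntegral.integral_eq_sub_of_hasDerivAt_of_le (by positivity) ?_
      (fun x hx => hasDerivAt_asn hv hx) (hcont.intervalIntegrable _ _)]
    · simp only [Real.sin_pi_div_two, Real.sin_zero]
      rw [mul_one, mul_zero, zero_div, Real.arcsin_zero, zero_div, sub_zero, one_pow,
        div_self hq0.ne', Real.arcsin_one]
      field_simp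
    · refine Continuous.continuousOn ?_
      refine Continuous.div_const ?_ _
      refine Real.continuous_arcsin.comp ?_
      refine Continuous.div (by fun_prop) (by fun_prop) fun x => ?_
      exact (Real.sqrt_pos.2 (hpv x)).ne'
  · exact hcont.integrableOn_Icc.mono_set Ioc_subset_Icc_self
  · exact Eventually.of_forall fun x => by have := hpv x; positivity

lemma abel_weight : ∫⁻ A in Ioi (0 : ℝ), ENNReal.ofReal (A / ((1 + A ^ 2) * Real.sqrt (1 + A ^ 2)))
    = 1 := by
  have hd : ∀ x ∈ Ici (0 : ℝ), HasDerivAt (fun A => -(Real.sqrt (1 + A ^ 2))⁻¹)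
      (x / ((1 + x ^ 2) * Real.sqrt (1 + x ^ 2))) x := by
    intro x _
    have hp := sqrt_pos' x
    have hp2 := sq_sqrt' x
    have h1 : HasDerivAt (fun A : ℝ => Real.sqrt (1 + A ^ 2)) (2 * x / (2 * Real.sqrt (1 + x ^ 2)))
        x := by
      have := (((hasDerivAt_id x).pow 2).const_add 1).sqrt (show 1 + id x ^ 2 ≠ 0 by
        simp only [id]; positivity)
      simpa using this
    have h2 := (h1.inv hp.ne').neg
    refine h2.congr_deriv ?_
    rw [hp2]
    have : (1 + x ^ 2) ≠ 0 := by positivity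
    field_simp
  have hpos : ∀ x ∈ Ioi (0 : ℝ), 0 ≤ x / ((1 + x ^ 2) * Real.sqrt (1 + x ^ 2)) := by
    intro x hx
    have := sqrt_pos' x
    have hx' : 0 < x := hx
    positivity
  have hlim : Tendsto (fun A : ℝ => -(Real.sqrt (1 + A ^ 2))⁻¹) atTop (𝓝 0) := by
    have h1 : Tendsto (fun A : ℝ => Real.sqrt (1 + A ^ 2)) atTop atTop := by
      refine tendsto_atTop_mono (fun A => ?_) tendsto_id
      exact Real.le_sqrt_of_sq_le (by simp)
    simpa using h1.inv_tendsto_atTop.neg
  rw [← ofReal_integral_eq_lintegral_ofReal (integrableOn_Ioi_deriv_of_nonneg' hd hpos hlim),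
    integral_Ioi_of_hasDerivAt_of_nonneg' hd hpos hlim]
  · simp
  · exact (ae_restrict_iff' measurableSet_Ioi).2 (Eventually.of_forall fun x hx => hpos x hx)

lemma abel_subst (K : ℝ → ℝ≥0∞) {x : ℝ} (hx : x ∈ Ioo 0 (Real.pi / 2)) :
    ∫⁻ A in Ioi (0 : ℝ), ENNReal.ofReal (A / (1 + A ^ 2)) * K (A * Real.sin x) =
      ∫⁻ v in Ioi (0 : ℝ), ENNReal.ofReal (v / (Real.sin x ^ 2 + v ^ 2)) * K v := by
  have hs : 0 < Real.sin x := Real.sin_pos_of_pos_of_lt_pi hx.1 (by linarith [hx.2, Real.pi_pos])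
  have himg : (fun A => A * Real.sin x) '' Ioi 0 = Ioi 0 := by
    ext y
    constructor
    · rintro ⟨A, hA, rfl⟩
      exact mul_pos hA hs
    · intro hy
      exact ⟨y / Real.sin x, div_pos hy hs, by field_simp⟩
  conv_rhs => rw [← himg]
  rw [lintegral_image_eq_lintegral_abs_deriv_mul (f' := fun _ => Real.sin x) measurableSet_Ioi]
  · refine setLIntegral_congr_fun measurableSet_Ioi fun A hA => ?_
    have hA' : 0 < A := hA
    rw [← mul_assoc, abs_of_pos hs, ← ENNReal.ofReal_mul hs.le]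
    congr 2
    have : 1 + A ^ 2 ≠ 0 := by positivity
    have h2 : Real.sin x ^ 2 + (A * Real.sin x) ^ 2 ≠ 0 := by positivity
    field_simp
  · intro A _
    have := ((hasDerivAt_id A).mul_const (Real.sin x)).hasDerivWithinAt (s := Ioi 0)
    simpa using this
  · intro A _ B _ h
    exact mul_right_cancel₀ hs.ne' h

/-- The Abel type inequality. -/
theorem abel_ineq {K : ℝ → ℝ≥0∞} (hK : Measurable K) {c : ℝ≥0∞}
    (hA : ∀ᵐ A ∂(volume.restrict (Ioi (0 : ℝ))), c ≤ ENNReal.ofReal (Real.sqrt (1 + A ^ 2)) *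
      ∫⁻ x in Ioo 0 (Real.pi / 2), K (A * Real.sin x)) :
    c ≤ ∫⁻ v in Ioi (0 : ℝ), ENNReal.ofReal (Real.pi / (2 * Real.sqrt (1 + v ^ 2))) * K v := by
  have hm2 : Measurable (fun p : ℝ × ℝ => K (p.1 * Real.sin p.2)) :=
    hK.comp (by fun_prop)
  have hm3 : Measurable (fun p : ℝ × ℝ => K (p.2 * Real.sin p.1)) :=
    hK.comp (by fun_prop)
  calc c = ∫⁻ A in Ioi (0 : ℝ), ENNReal.ofReal (A / ((1 + A ^ 2) * Real.sqrt (1 + A ^ 2))) * c := by
        rw [lintegral_mul_const _ (by fun_prop), abel_weight, one_mul]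
    _ ≤ ∫⁻ A in Ioi (0 : ℝ), ENNReal.ofReal (A / ((1 + A ^ 2) * Real.sqrt (1 + A ^ 2))) *
        (ENNReal.ofReal (Real.sqrt (1 + A ^ 2)) *
          ∫⁻ x in Ioo 0 (Real.pi / 2), K (A * Real.sin x)) := by
        refine lintegral_mono_ae ?_
        filter_upwards [hA] with A h
        gcongr
    _ = ∫⁻ A in Ioi (0 : ℝ), ∫⁻ x in Ioo 0 (Real.pi / 2),
          ENNReal.ofReal (A / (1 + A ^ 2)) * K (A * Real.sin x) := by
        refine setLIntegral_congr_fun measurableSet_Ioi fun A hA => ?_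
        have hA' : 0 < A := hA
        have hq := sqrt_pos' A
        rw [← mul_assoc, ← ENNReal.ofReal_mul (by positivity), ← lintegral_const_mul]
        · have : A / ((1 + A ^ 2) * Real.sqrt (1 + A ^ 2)) * Real.sqrt (1 + A ^ 2) =
              A / (1 + A ^ 2) := by field_simp
          rw [this]
        · exact hm2.comp (measurable_prodMk_left (x := A))
    _ = ∫⁻ x in Ioo 0 (Real.pi / 2), ∫⁻ A in Ioi (0 : ℝ),
          ENNReal.ofReal (A / (1 + A ^ 2)) * K (A * Real.sin x) := by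
        refine lintegral_lintegral_swap ?_
        exact (Measurable.mul (by fun_prop) hm2).aemeasurable
    _ = ∫⁻ x in Ioo 0 (Real.pi / 2), ∫⁻ v in Ioi (0 : ℝ),
          ENNReal.ofReal (v / (Real.sin x ^ 2 + v ^ 2)) * K v :=
        setLIntegral_congr_fun measurableSet_Ioo fun x hx => abel_subst K hx
    _ = ∫⁻ v in Ioi (0 : ℝ), ∫⁻ x in Ioo 0 (Real.pi / 2),
          ENNReal.ofReal (v / (Real.sin x ^ 2 + v ^ 2)) * K v := by
        refine lintegral_lintegral_swap ?_
        refine Measurable.aemeasurable ?_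
        exact Measurable.mul (by fun_prop) (hK.comp measurable_snd)
    _ = ∫⁻ v in Ioi (0 : ℝ), ENNReal.ofReal (Real.pi / (2 * Real.sqrt (1 + v ^ 2))) * K v := by
        refine setLIntegral_congr_fun measurableSet_Ioi fun v hv => ?_
        rw [lintegral_mul_const _ (by fun_prop), abel_inner hv]

end Pool.Agent.H70.SD
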