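import Pool.Agent.H70.SD.Brick

/-!
# The network inequality
-/

open scoped ENNReal

namespace Pool.Agent.H70.SD

lemma sum_periodic {N : ℕ} {g : ℤ → ℝ≥0∞} (hg : ∀ τ, g (τ + N) = g τ) (m : ℤ) :
    ∑ k ∈ Finset.range N, g (m + k) = ∑ k ∈ Finset.range N, g k := by
  have step : ∀ m : ℤ, ∑ k ∈ Finset.range N, g (m + 1 + k) = ∑ k ∈ Finset.range N, g (m + k) := by
    intro m
    rcases Nat.eq_zero_or_pos N with h | h
    · subst h; simp
    · obtain ⟨M, rfl⟩ : ∃ M, N = M + 1 := ⟨N - 1, by omega⟩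
      rw [Finset.sum_range_succ, Finset.sum_range_succ']
      congr 1
      · apply Finset.sum_congr rfl
        intro k _
        congr 1
        push_cast
        ring
      · rw [← hg (m + ((0 : ℕ) : ℤ))]
        congr 1
        push_cast
        ring
  induction m using Int.induction_on with
  | zero => simp
  | succ i ih => rw [step, ih]
  | pred i ih =>
    rw [← step, ← ih]
    apply Finset.sum_congr rfl
    intro k _
    congr 1
    ring

lemma sum_strands {n : ℕ} {B : ℤ → ℕ → Prop} {p : Fin n → ℤ → ℕ} (h : Res n B p) (τ : ℤ)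
    (f : ℕ → ℝ≥0∞) : ∑ a, f (p a τ) = ∑ s ∈ Finset.range n, f s := by
  refine Finset.sum_bij (fun a _ => p a τ) ?_ ?_ ?_ ?_
  · intro a _; exact Finset.mem_range.2 (h.lt a τ)
  · intro a _ b _ hab; exact h.inj τ hab
  · intro s hs
    obtain ⟨a, ha⟩ := h.surj τ (Finset.mem_range.1 hs)
    exact ⟨a, Finset.mem_univ _, ha⟩
  · intro a _; rfl

lemma lev_add_two_n {n : ℕ} (τ : ℤ) (s : ℕ) : lev (τ + 2 * n) s = lev τ s :=
  lev_per (n := n) (q := 1) (by ring) s

/-- **Network inequality.** -/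
theorem net_ineq {X : Type*} [PseudoMetricSpace X] {n : ℕ} (hn : 0 < n) (B : ℤ → ℕ → Prop)
    (hB : ∀ τ κ, B (τ + 2 * n) κ ↔ B τ κ) (Q : ℤ → ℕ → X) (l : ℤ → ℕ → ℝ≥0∞) (err : ℕ → ℝ)
    (c : ℝ)
    (hQ1 : ∀ τ s s', s < n → s' < n → lev τ s = lev τ s' → ¬ B τ (lev τ s) → Q τ s = Q τ s')
    (hQ2 : ∀ τ s, s < n → ENNReal.ofReal (dist (Q τ s) (Q (τ + 1) s)) ≤
      l τ s + ENNReal.ofReal (err s))
    (hQ3 : ∀ τ s, s < n → (lev τ s = 0 ∨ B τ (lev τ s)) → c ≤ dist (Q τ s) (Q (τ + 2 * n) s))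
    (hper : ∀ τ s, l (τ + 4 * n) s = l τ s) :
    n * (2 * ENNReal.ofReal c) ≤
      ∑ τ ∈ Finset.range (4 * n), ∑ s ∈ Finset.range n, l τ s +
        (4 * n : ℕ) * ∑ s ∈ Finset.range n, ENNReal.ofReal (err s) := by
  obtain ⟨p, hp⟩ := exists_res hn B hB
  -- one step
  have step : ∀ a τ, ENNReal.ofReal (dist (Q τ (p a τ)) (Q (τ + 1) (p a (τ + 1)))) ≤
      l τ (p a τ) + ENNReal.ofReal (err (p a τ)) := by
    intro a τ
    have e : Q (τ + 1) (p a (τ + 1)) = Q (τ + 1) (p a τ) := by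
      have h1 := hp.cont a (τ + 1)
      have h2 := hp.block a (τ + 1)
      rw [add_sub_cancel_right] at h1 h2
      by_cases hb : B (τ + 1) (lev (τ + 1) (p a (τ + 1)))
      · rw [h2 hb]
      · exact hQ1 _ _ _ (hp.lt _ _) (hp.lt _ _) h1.symm hb
    rw [e]
    exact hQ2 _ _ (hp.lt _ _)
  -- several steps
  have steps : ∀ a τ (K : ℕ), ENNReal.ofReal (dist (Q τ (p a τ)) (Q (τ + K) (p a (τ + K)))) ≤
      ∑ k ∈ Finset.range K, (l (τ + k) (p a (τ + k)) + ENNReal.ofReal (err (p a (τ + k)))) := by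
    intro a τ K
    induction K with
    | zero => simp
    | succ K ih =>
      rw [Finset.sum_range_succ]
      have h1 := step a (τ + K)
      have h2 := dist_triangle (Q τ (p a τ)) (Q (τ + K) (p a (τ + K)))
        (Q (τ + K + 1) (p a (τ + K + 1)))
      rw [show τ + ((K + 1 : ℕ) : ℤ) = τ + K + 1 by push_cast; ring]
      calc _ ≤ ENNReal.ofReal (dist (Q τ (p a τ)) (Q (τ + K) (p a (τ + K))) +
            dist (Q (τ + K) (p a (τ + K))) (Q (τ + K + 1) (p a (τ + K + 1)))) :=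
              ENNReal.ofReal_le_ofReal h2
        _ ≤ _ := by
            rw [ENNReal.ofReal_add dist_nonneg dist_nonneg]
            exact add_le_add ih h1
  -- the half turn of a strand
  have half : ∀ a τ, (lev τ (p a τ) = 0 ∨ B τ (lev τ (p a τ))) → ENNReal.ofReal c ≤
      ∑ k ∈ Finset.range (2 * n), (l (τ + k) (p a (τ + k)) + ENNReal.ofReal (err (p a (τ + k)))) := by
    intro a τ h
    have h1 := steps a τ (2 * n)
    have h2 := hQ3 τ (p a τ) (hp.lt _ _) h
    rw [show τ + ((2 * n : ℕ) : ℤ) = τ + 2 * n by push_cast; ring, hp.per] at h1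
    exact (ENNReal.ofReal_le_ofReal h2).trans h1
  have full : ∀ a, 2 * ENNReal.ofReal c ≤
      ∑ k ∈ Finset.range (4 * n), (l k (p a k) + ENNReal.ofReal (err (p a k))) := by
    intro a
    obtain ⟨τ, hτ⟩ := hp.contact a
    have h1 := half a τ hτ
    have h2 := half a (τ + 2 * n) (by
      rw [hp.per, lev_add_two_n, hB]; exact hτ)
    have e := sum_periodic (N := 4 * n)
      (g := fun τ => l τ (p a τ) + ENNReal.ofReal (err (p a τ))) (by
        intro τ
        have e1 : p a (τ + 4 * n) = p a τ := by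
          rw [show τ + 4 * (n : ℤ) = τ + 2 * n + 2 * n by ring, hp.per, hp.per]
        push_cast
        rw [e1, hper]) τ
    rw [← e, show 4 * n = 2 * n + 2 * n by ring, Finset.sum_range_add, two_mul]
    refine add_le_add h1 (h2.trans (le_of_eq ?_))
    apply Finset.sum_congr rfl
    intro k _
    rw [show τ + 2 * (n : ℤ) + k = τ + ((2 * n + k : ℕ) : ℤ) by push_cast; ring]
  calc (n : ℝ≥0∞) * (2 * ENNReal.ofReal c) = ∑ _a : Fin n, 2 * ENNReal.ofReal c := by simp
    _ ≤ ∑ a : Fin n, ∑ k ∈ Finset.range (4 * n), (l k (p a k) + ENNReal.ofReal (err (p a k))) :=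
        Finset.sum_le_sum fun a _ => full a
    _ = ∑ k ∈ Finset.range (4 * n), ∑ s ∈ Finset.range n, (l k s + ENNReal.ofReal (err s)) := by
        rw [Finset.sum_comm]
        apply Finset.sum_congr rfl
        intro k _
        exact sum_strands hp k fun s => l k s + ENNReal.ofReal (err s)
    _ = _ := by
        simp only [Finset.sum_add_distrib, Finset.sum_const, Finset.card_range, nsmul_eq_mul]

end Pool.Agent.H70.SD
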