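import Pool.Agent.H70.SD.Edge
import Pool.Agent.H70.SD.Net

/-!
# The network of great circles of a given amplitude
-/

open MeasureTheory Set Filter Topology
open scoped ENNReal

noncomputable section

namespace Pool.Agent.H70.SD

/-- the time step -/
def hh (n : ℕ) : ℝ := Real.pi / (2 * n)

/-- the direction of the edge in the slot `s` at time `τ` -/
def sg (τ : ℤ) (s : ℕ) : ℝ := if (τ + s) % 2 = 0 then 1 else -1

lemma sg_sq (τ : ℤ) (s : ℕ) : sg τ s ^ 2 = 1 := by unfold sg; split_ifs <;> norm_num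

lemma lev_succ (τ : ℤ) (s : ℕ) : (lev (τ + 1) s : ℝ) = lev τ s + sg τ s := by
  unfold lev sg
  split_ifs with h1 h2 h2
  · omega
  · push_cast; ring
  · push_cast; ring
  · omega

/-- vertices -/
def vtx (A : ℝ) (n : ℕ) (u : ℝ) (τ : ℤ) (κ : ℕ) : ℂ := pt (A * Real.sin (κ * hh n)) (τ * hh n + u)

/-- the depth of the circle of radius `r` -/
def xr (A r : ℝ) : ℝ := Real.arcsin (vv r / A)

/-- the slot which contains the circle of radius `r` -/
def Kr (A : ℝ) (n : ℕ) (r : ℝ) : ℕ := ⌊xr A r / hh n⌋₊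

/-- the crossing point of the edge in the slot `Kr` with the circle of radius `r` -/
def Yp (A : ℝ) (n : ℕ) (u : ℝ) (τ : ℤ) (r : ℝ) : ℂ :=
  pt (vv r) (τ * hh n + u + |xr A r - lev τ (Kr A n r) * hh n|)

def cond (A : ℝ) (n : ℕ) (u : ℝ) (S : Set ℂ) (τ : ℤ) (r : ℝ) : Prop :=
  ∃ y, (y = Yp A n u τ r ∨ y = Yp A n u (τ - 1) r) ∧ (y ∈ S ∨ -y ∈ S)

def Bl (A : ℝ) (n : ℕ) (u : ℝ) (S : Set ℂ) (R : Finset ℝ) (τ : ℤ) (κ : ℕ) : Prop :=
  ∃ r ∈ R, vv r < A ∧ Kr A n r = κ ∧ cond A n u S τ r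

open Classical in
def Qp {X : Type*} (inn : ℂ → X) (A : ℝ) (n : ℕ) (u : ℝ) (S : Set ℂ) (R : Finset ℝ) (τ : ℤ)
    (s : ℕ) : X :=
  if h : ∃ r ∈ R, vv r < A ∧ Kr A n r = s ∧ lev τ s = s ∧ cond A n u S τ r then
    inn (Yp A n u τ h.choose) else inn (vtx A n u τ (lev τ s))

/-- the length of an edge -/
def ell (lam : ℂ → ℝ≥0∞) (A : ℝ) (n : ℕ) (u : ℝ) (τ : ℤ) (s : ℕ) : ℝ≥0∞ :=
  ∫⁻ t in Icc 0 (hh n), lam (pt (A * Real.sin (lev τ s * hh n + sg τ s * t)) (τ * hh n + u + t)) *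
    ENNReal.ofReal (spd A (A * Real.sin (lev τ s * hh n + sg τ s * t)))

lemma hh_pos {n : ℕ} (hn : 0 < n) : 0 < hh n := by unfold hh; positivity

lemma two_n_hh {n : ℕ} (hn : 0 < n) : 2 * (n : ℝ) * hh n = Real.pi := by
  unfold hh
  have : (n : ℝ) ≠ 0 := by positivity
  field_simp

lemma n_hh {n : ℕ} (hn : 0 < n) : (n : ℝ) * hh n = Real.pi / 2 := by
  have := two_n_hh hn; linarith

lemma vtx_add {A : ℝ} {n : ℕ} (hn : 0 < n) (u : ℝ) (τ : ℤ) (κ : ℕ) :
    vtx A n u (τ + 2 * n) κ = -vtx A n u τ κ := by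
  unfold vtx
  rw [← pt_add_pi]
  congr 1
  push_cast
  have := two_n_hh hn
  linear_combination this

lemma Yp_add {A : ℝ} {n : ℕ} (hn : 0 < n) (u : ℝ) (τ : ℤ) (r : ℝ) :
    Yp A n u (τ + 2 * n) r = -Yp A n u τ r := by
  unfold Yp
  rw [← pt_add_pi, lev_add_two_n]
  congr 1
  push_cast
  have := two_n_hh hn
  linear_combination this

lemma cond_add {A : ℝ} {n : ℕ} (hn : 0 < n) (u : ℝ) (S : Set ℂ) (τ : ℤ) (r : ℝ) :
    cond A n u S (τ + 2 * n) r ↔ cond A n u S τ r := by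
  unfold cond
  rw [Yp_add hn, show τ + 2 * (n : ℤ) - 1 = (τ - 1) + 2 * n by ring, Yp_add hn]
  constructor
  · rintro ⟨y, hy, hS⟩
    refine ⟨-y, ?_, ?_⟩
    · rcases hy with rfl | rfl <;> simp
    · rw [neg_neg]; exact hS.symm
  · rintro ⟨y, hy, hS⟩
    refine ⟨-y, ?_, ?_⟩
    · rcases hy with rfl | rfl <;> simp
    · rw [neg_neg]; exact hS.symm

lemma Bl_add {A : ℝ} {n : ℕ} (hn : 0 < n) (u : ℝ) (S : Set ℂ) (R : Finset ℝ) (τ : ℤ) (κ : ℕ) :
    Bl A n u S R (τ + 2 * n) κ ↔ Bl A n u S R τ κ := by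
  unfold Bl
  simp only [cond_add hn]

lemma ell_add {lam : ℂ → ℝ≥0∞} {A : ℝ} {n : ℕ} (hn : 0 < n) (u : ℝ) (τ : ℤ) (s : ℕ) :
    ell lam A n u (τ + 4 * n) s = ell lam A n u τ s := by
  unfold ell
  have e1 : lev (τ + 4 * n) s = lev τ s := lev_per (n := n) (q := 2) (by ring) s
  have e2 : sg (τ + 4 * n) s = sg τ s := by
    unfold sg
    rw [show τ + 4 * (n : ℤ) + s = τ + s + 2 * (2 * n) by ring, Int.add_mul_emod_self_left]
  rw [e1, e2]
  refine lintegral_congr fun t => ?_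
  congr 2
  rw [← pt_add_two_pi _ (τ * hh n + u + t)]
  congr 1
  push_cast
  have := two_n_hh hn
  linear_combination 2 * this

/-- facts about a visible circle -/
lemma xr_facts {A r : ℝ} (hr : 0 < r) (hr1 : r < 1) (hv : vv r < A) :
    0 < xr A r ∧ xr A r < Real.pi / 2 ∧ A * Real.sin (xr A r) = vv r := by
  have h0 := vv_pos hr hr1
  have hA : 0 < A := h0.trans hv
  have h1 : vv r / A < 1 := (div_lt_one hA).2 hv
  have h2 : 0 < vv r / A := by positivity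
  refine ⟨Real.arcsin_pos.2 h2, Real.arcsin_lt_pi_div_two.2 h1, ?_⟩
  unfold xr
  rw [Real.sin_arcsin (by linarith) h1.le]
  field_simp

/-- The assumptions on the amplitude and on `n`. -/
structure Big (A : ℝ) (n : ℕ) (R : Finset ℝ) (δ : ℝ) : Prop where
  A_pos : 0 < A
  n_pos : 0 < n
  gen : ∀ r ∈ R, ∀ κ : ℕ, rad (A * Real.sin (κ * hh n)) ≠ r
  one : ∀ r ∈ R, vv r < A → hh n < xr A r
  inj : ∀ r ∈ R, ∀ r' ∈ R, vv r < A → vv r' < A → Kr A n r = Kr A n r' → r = r'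
  small : (A + 2) * hh n < δ

variable {A : ℝ} {n : ℕ} {R : Finset ℝ} {δ : ℝ}

lemma Big.K_facts (hb : Big A n R δ) (hR : ∀ r ∈ R, 0 < r ∧ r < 1) {r : ℝ} (hr : r ∈ R)
    (hv : vv r < A) : (Kr A n r : ℝ) * hh n < xr A r ∧ xr A r < (Kr A n r + 1) * hh n ∧
      1 ≤ Kr A n r ∧ Kr A n r < n := by
  have hh0 := hh_pos hb.n_pos
  obtain ⟨h1, h2, h3⟩ := xr_facts (hR r hr).1 (hR r hr).2 hv
  have f1 : (Kr A n r : ℝ) ≤ xr A r / hh n := Nat.floor_le (by positivity)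
  have f2 : xr A r / hh n < Kr A n r + 1 := Nat.lt_floor_add_one _
  rw [le_div_iff₀ hh0] at f1
  rw [div_lt_iff₀ hh0] at f2
  refine ⟨lt_of_le_of_ne f1 fun he => ?_, f2, ?_, ?_⟩
  · apply hb.gen r hr (Kr A n r)
    rw [he, h3, rad_vv (hR r hr).1]
  · by_contra hc
    push Not at hc
    have h4 := hb.one r hr hv
    have : Kr A n r = 0 := by omega
    rw [this] at f2
    simp at f2
    linarith
  · by_contra hc
    push Not at hc
    have h4 : (n : ℝ) ≤ Kr A n r := by exact_mod_cast hc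
    have h5 : (n : ℝ) * hh n ≤ Kr A n r * hh n := mul_le_mul_of_nonneg_right h4 hh0.le
    rw [n_hh hb.n_pos] at h5
    linarith

/-- the position on an edge -/
lemma x_mem {n : ℕ} {τ : ℤ} {s : ℕ} {t : ℝ} (ht : t ∈ Ioo 0 (hh n)) :
    (s : ℝ) * hh n < lev τ s * hh n + sg τ s * t ∧
      lev τ s * hh n + sg τ s * t < (s + 1) * hh n := by
  have := ht.1; have := ht.2
  unfold lev sg
  split_ifs
  · constructor <;> linarith
  · push_cast; constructor <;> linarith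

lemma Big.crossing (hb : Big A n R δ) (hR : ∀ r ∈ R, 0 < r ∧ r < 1) {S : Set ℂ}
    (hS : ∀ z ∈ S, ‖z‖ ∈ R) (u : ℝ) {τ : ℤ} {s : ℕ} (hs : s < n) {t : ℝ} (ht : t ∈ Ioo 0 (hh n)) :
    ‖gc A (lev τ s * hh n) (sg τ s) (τ * hh n + u) t‖ < 1 ∧
    (gc A (lev τ s * hh n) (sg τ s) (τ * hh n + u) t ∈ S → ∃ r ∈ R, vv r < A ∧ Kr A n r = s ∧
      gc A (lev τ s * hh n) (sg τ s) (τ * hh n + u) t = Yp A n u τ r) := by
  have hh0 := hh_pos hb.n_pos
  set x := lev τ s * hh n + sg τ s * t with hx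
  obtain ⟨x1, x2⟩ := x_mem (τ := τ) (s := s) ht
  rw [← hx] at x1 x2
  have hs' : (s : ℝ) + 1 ≤ n := by exact_mod_cast hs
  have x0 : 0 < x := lt_of_le_of_lt (by positivity) x1
  have x3 : x < Real.pi / 2 := by
    rw [← n_hh hb.n_pos]
    exact lt_of_lt_of_le x2 (mul_le_mul_of_nonneg_right hs' hh0.le)
  have hsin : 0 < Real.sin x := Real.sin_pos_of_pos_of_lt_pi x0 (by linarith [Real.pi_pos])
  have hsin1 : Real.sin x < 1 := by
    have := Real.sin_lt_sin_of_lt_of_le_pi_div_two (by linarith : -(Real.pi / 2) ≤ x) le_rfl x3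
    rwa [Real.sin_pi_div_two] at this
  have hA := hb.A_pos
  have hn : ‖gc A (lev τ s * hh n) (sg τ s) (τ * hh n + u) t‖ = rad (A * Real.sin x) := by
    unfold gc; rw [norm_pt]
  refine ⟨?_, ?_⟩
  · rw [hn]; exact rad_lt_one (by positivity)
  · intro hmem
    have hr := hS _ hmem
    rw [hn] at hr
    set r := rad (A * Real.sin x) with hrdef
    have hv : A * Real.sin x = vv r := eq_vv (hR r hr).1 rfl
    have hvA : vv r < A := by rw [← hv]; nlinarith
    have hxr : xr A r = x := by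
      unfold xr
      rw [← hv, mul_div_cancel_left₀ _ hA.ne', Real.arcsin_sin (by linarith) (by linarith)]
    have hK : Kr A n r = s := by
      unfold Kr
      rw [hxr, Nat.floor_eq_iff (by positivity)]
      constructor
      · rw [le_div_iff₀ hh0]; exact x1.le
      · rw [div_lt_iff₀ hh0]; exact x2
    refine ⟨r, hr, hvA, hK, ?_⟩
    unfold gc Yp
    rw [← hx, hv, hxr, hK, hx]
    congr 1
    have : |(lev τ s * hh n + sg τ s * t) - lev τ s * hh n| = t := by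
      rw [add_sub_cancel_left, abs_mul, abs_of_pos ht.1]
      unfold sg; split_ifs <;> simp
    rw [this]

lemma norm_vtx (hb : Big A n R δ) (u : ℝ) (τ : ℤ) {κ : ℕ} (hκ : κ ≤ n) :
    ‖vtx A n u τ κ‖ ≤ 1 ∧ ‖vtx A n u τ κ‖ ∉ R := by
  have hh0 := hh_pos hb.n_pos
  have hA := hb.A_pos
  unfold vtx
  rw [norm_pt]
  constructor
  · apply rad_le_one
    have h1 : (κ : ℝ) * hh n ≤ Real.pi / 2 := by
      rw [← n_hh hb.n_pos]
      exact mul_le_mul_of_nonneg_right (by exact_mod_cast hκ) hh0.le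
    have : 0 ≤ Real.sin (κ * hh n) := Real.sin_nonneg_of_nonneg_of_le_pi (by positivity)
      (by linarith [Real.pi_pos])
    positivity
  · intro h
    exact hb.gen _ h κ rfl

/-- The edge inequality when the edge avoids the slits. -/
lemma edge_ineq {X : Type*} [PseudoMetricSpace X] {c : ℝ} {S : Set ℂ} {inn out : ℂ → X}
    {lam : ℂ → ℝ≥0∞} (h : SlitData c S R inn out lam) (hb : Big A n R δ) (u : ℝ) (τ : ℤ) {s : ℕ}
    (hs : s < n) (hav : ∀ t ∈ Ioo 0 (hh n),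
      gc A (lev τ s * hh n) (sg τ s) (τ * hh n + u) t ∉ S) :
    ENNReal.ofReal (dist (inn (vtx A n u τ (lev τ s))) (inn (vtx A n u (τ + 1) (lev (τ + 1) s)))) ≤
      ell lam A n u τ s := by
  have hh0 := hh_pos hb.n_pos
  have e0 : gc A (lev τ s * hh n) (sg τ s) (τ * hh n + u) 0 = vtx A n u τ (lev τ s) := by
    unfold gc vtx; simp
  have e1 : gc A (lev τ s * hh n) (sg τ s) (τ * hh n + u) (hh n) =
      vtx A n u (τ + 1) (lev (τ + 1) s) := by
    unfold gc vtx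
    rw [lev_succ, show (lev τ s : ℝ) * hh n + sg τ s * hh n = (lev τ s + sg τ s) * hh n by ring]
    congr 1
    push_cast
    ring
  have hl : ∀ τ : ℤ, lev τ s ≤ n := by
    intro τ; unfold lev; split_ifs <;> omega
  have n0 := norm_vtx hb u τ (hl τ)
  have n1 := norm_vtx hb u (τ + 1) (hl (τ + 1))
  have hc : Continuous (gc' A (lev τ s * hh n) (sg τ s) (τ * hh n + u)) := by
    have hcr : Continuous rad := continuous_iff_continuousAt.2 fun t => (hasDerivAt_rad t).continuousAt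
    have hne : ∀ t : ℝ, Real.sqrt (1 + (A * Real.sin (lev τ s * hh n + sg τ s * t)) ^ 2) ≠ 0 :=
      fun t => (sqrt_pos' _).ne'
    unfold gc'
    refine Continuous.add (Continuous.mul (Complex.continuous_ofReal.comp (Continuous.mul
      (Continuous.div ?_ ?_ hne) ?_)) ?_) (Continuous.mul ?_ ?_)
    · fun_prop
    · fun_prop
    · fun_prop
    · fun_prop
    · exact Complex.continuous_ofReal.comp (hcr.comp (by fun_prop))
    · fun_prop
  have key := h.path_ineq hh0 (fun t => hasDerivAt_gc A (lev τ s * hh n) (sg τ s)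
    (τ * hh n + u) t) hc (fun t ht => ⟨(hb.crossing h.rad_mem h.norm_mem u hs ht).1, hav t ht⟩)
    (by rw [e0]; exact n0.1) (by rw [e0]; exact n0.2) (by rw [e1]; exact n1.1)
    (by rw [e1]; exact n1.2)
  rw [e0, e1] at key
  refine key.trans (le_of_eq ?_)
  unfold ell
  refine lintegral_congr fun t => ?_
  rw [← ofReal_norm, norm_gc' _ _ _ _ _ (sg_sq τ s)]
  rfl

lemma vv_le_of_le {x A : ℝ} (hA : 0 < A) {r : ℝ} (hr : 0 < r) (hr1 : r < 1) (hv : vv r < A)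
    (hx : xr A r ≤ x) (hx2 : x ≤ Real.pi / 2) : rad (A * Real.sin x) ≤ r := by
  obtain ⟨h1, h2, h3⟩ := xr_facts hr hr1 hv
  rw [← rad_vv hr, ← h3]
  apply rad_strictAnti.antitone
  apply mul_le_mul_of_nonneg_left _ hA.le
  exact Real.sin_le_sin_of_le_of_le_pi_div_two (by linarith) hx2 hx

lemma le_of_le_vv {x A : ℝ} (hA : 0 < A) {r : ℝ} (hr : 0 < r) (hr1 : r < 1) (hv : vv r < A)
    (hx : x ≤ xr A r) (hx0 : 0 ≤ x) : r ≤ rad (A * Real.sin x) := by
  obtain ⟨h1, h2, h3⟩ := xr_facts hr hr1 hv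
  rw [← rad_vv hr, ← h3]
  apply rad_strictAnti.antitone
  apply mul_le_mul_of_nonneg_left _ hA.le
  exact Real.sin_le_sin_of_le_of_le_pi_div_two (by linarith) h2.le hx

lemma abs_sin_sub_le (x y : ℝ) : |Real.sin x - Real.sin y| ≤ |x - y| := by
  have := Real.abs_sin_sub_sin_le x y
  exact this

end Pool.Agent.H70.SD
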