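import Pool.Agent.H70.SD.Amp

/-!
# The inequality for one amplitude and one shift
-/

open MeasureTheory Set Filter Topology
open scoped ENNReal

noncomputable section

namespace Pool.Agent.H70.SD

variable {A : ℝ} {n : ℕ} {R : Finset ℝ} {δ : ℝ}

lemma far_cond {X : Type*} [PseudoMetricSpace X] {c : ℝ} {S : Set ℂ} {inn out : ℂ → X}
    {lam : ℂ → ℝ≥0∞} (h : SlitData c S R inn out lam) {y : ℂ} (hy : y ∈ S ∨ -y ∈ S) :
    c ≤ dist (inn y) (inn (-y)) ∧ c ≤ dist (out y) (out (-y)) := by
  rcases hy with hy | hy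
  · exact ⟨h.far_inn y hy, h.far_out y hy⟩
  · have h1 := h.far_inn _ hy
    have h2 := h.far_out _ hy
    rw [neg_neg, dist_comm] at h1 h2
    exact ⟨h1, h2⟩

lemma norm_neg_mem {X : Type*} [PseudoMetricSpace X] {c : ℝ} {S : Set ℂ} {inn out : ℂ → X}
    {lam : ℂ → ℝ≥0∞} (h : SlitData c S R inn out lam) {z : ℂ} (hz : ‖z‖ ∉ R) : z ∉ S ∧ -z ∉ S :=
  ⟨fun hS => hz (h.norm_mem z hS), fun hS => hz (by simpa using h.norm_mem _ hS)⟩

theorem amp_ineq {X : Type*} [PseudoMetricSpace X] {c : ℝ} {S : Set ℂ} {inn out : ℂ → X}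
    {lam : ℂ → ℝ≥0∞} (h : SlitData c S R inn out lam) {ε : ℝ} (hε : 0 < ε) (hb : Big A n R δ)
    (hinn : ∀ r ∈ R, ∀ z w : ℂ, ‖z‖ = r → ‖w‖ ≤ r → ‖z - w‖ < δ → dist (inn z) (inn w) ≤ ε)
    (hout : ∀ r ∈ R, ∀ z w : ℂ, ‖z‖ = r → r ≤ ‖w‖ → ‖w‖ ≤ 1 → ‖z - w‖ < δ →
      dist (out z) (out w) ≤ ε) (u : ℝ) :
    n * (2 * ENNReal.ofReal (c - 2 * ε)) ≤
      ∑ τ ∈ Finset.range (4 * n), ∑ s ∈ Finset.range n, ell lam A n u τ s +
        (4 * n : ℕ) * (R.card * ENNReal.ofReal ε) := by
  classical
  have hh0 := hh_pos hb.n_pos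
  have hA := hb.A_pos
  have hR := h.rad_mem
  have hK := fun {r} (hr : r ∈ R) (hv : vv r < A) => hb.K_facts hR hr hv
  -- uniqueness of the circle
  have hQ_pos : ∀ τ s r, r ∈ R → vv r < A → Kr A n r = s → lev τ s = s → cond A n u S τ r →
      Qp inn A n u S R τ s = inn (Yp A n u τ r) := by
    intro τ s r hr hv hs hl hc
    have hex : ∃ r ∈ R, vv r < A ∧ Kr A n r = s ∧ lev τ s = s ∧ cond A n u S τ r :=
      ⟨r, hr, hv, hs, hl, hc⟩
    unfold Qp
    rw [dif_pos hex]
    have hch := hex.choose_spec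
    rw [hb.inj _ hch.1 r hr hch.2.1 hv (hch.2.2.1.trans hs.symm)]
  have hQ_neg : ∀ τ s, (¬ ∃ r ∈ R, vv r < A ∧ Kr A n r = s ∧ lev τ s = s ∧ cond A n u S τ r) →
      Qp inn A n u S R τ s = inn (vtx A n u τ (lev τ s)) := by
    intro τ s hne
    unfold Qp
    rw [dif_neg hne]
  have hlevn : ∀ (τ : ℤ) s, s < n → lev τ s ≤ n := by
    intro τ s hs; unfold lev; split_ifs <;> omega
  -- the norm of a point on a circle
  have hYn : ∀ τ r, r ∈ R → ‖Yp A n u τ r‖ = r := by
    intro τ r hr; unfold Yp; rw [norm_pt, rad_vv (hR r hr).1]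
  -- closeness
  have habs : ∀ τ r, r ∈ R → vv r < A →
      |xr A r - lev τ (Kr A n r) * hh n| ≤ hh n := by
    intro τ r hr hv
    obtain ⟨k1, k2, k3, k4⟩ := hK hr hv
    rw [abs_le]
    unfold lev
    split_ifs <;> push_cast <;> constructor <;> nlinarith
  have hYY : ∀ τ r, r ∈ R → vv r < A → ‖Yp A n u τ r - Yp A n u (τ - 1) r‖ < δ := by
    intro τ r hr hv
    have h0 := (vv_pos (hR r hr).1 (hR r hr).2).le
    unfold Yp
    refine (norm_pt_sub_le h0 h0 _ _).trans_lt ?_
    rw [sub_self, abs_zero, zero_add]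
    have a1 := habs τ r hr hv
    have a2 := habs (τ - 1) r hr hv
    have a3 := abs_nonneg (xr A r - lev τ (Kr A n r) * hh n)
    have a4 := abs_nonneg (xr A r - lev (τ - 1) (Kr A n r) * hh n)
    have : |((τ : ℝ) * hh n + u + |xr A r - lev τ (Kr A n r) * hh n|) -
        (((τ - 1 : ℤ) : ℝ) * hh n + u + |xr A r - lev (τ - 1) (Kr A n r) * hh n|)| ≤ 2 * hh n := by
      push_cast
      rw [abs_le]
      constructor <;> nlinarith
    nlinarith [hb.small]
  -- points of the vertex level `κ` near the circle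
  have hYV : ∀ τ τ' r κ, r ∈ R → vv r < A → (τ' = τ - 1 ∨ τ' = τ ∨ τ' = τ + 1) →
      (κ = Kr A n r ∨ κ = Kr A n r + 1) → ‖Yp A n u τ r - vtx A n u τ' κ‖ < δ := by
    intro τ τ' r κ hr hv hτ hκ
    obtain ⟨k1, k2, k3, k4⟩ := hK hr hv
    obtain ⟨x1, x2, x3⟩ := xr_facts (hR r hr).1 (hR r hr).2 hv
    have h0 := (vv_pos (hR r hr).1 (hR r hr).2).le
    have hκn : (κ : ℝ) * hh n ≤ Real.pi / 2 := by
      rw [← n_hh hb.n_pos]
      refine mul_le_mul_of_nonneg_right ?_ hh0.le
      have : κ ≤ n := by omega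
      exact_mod_cast this
    have hs0 : 0 ≤ A * Real.sin (κ * hh n) := mul_nonneg hA.le
      (Real.sin_nonneg_of_nonneg_of_le_pi (by positivity) (by linarith [Real.pi_pos]))
    unfold Yp vtx
    refine (norm_pt_sub_le h0 hs0 _ _).trans_lt ?_
    have e1 : |vv r - A * Real.sin (κ * hh n)| ≤ A * hh n := by
      rw [← x3, ← mul_sub, abs_mul, abs_of_pos hA]
      refine mul_le_mul_of_nonneg_left ((Real.abs_sin_sub_sin_le _ _).trans ?_) hA.le
      rw [abs_le]
      rcases hκ with rfl | rfl <;> push_cast <;> constructor <;> nlinarith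
    have a1 := habs τ r hr hv
    have a3 := abs_nonneg (xr A r - lev τ (Kr A n r) * hh n)
    have e2 : |((τ : ℝ) * hh n + u + |xr A r - lev τ (Kr A n r) * hh n|) -
        ((τ' : ℝ) * hh n + u)| ≤ 2 * hh n := by
      rw [abs_le]
      rcases hτ with rfl | rfl | rfl <;> push_cast <;> constructor <;> nlinarith
    nlinarith [hb.small]
  -- the network inequality
  have main := net_ineq hb.n_pos (Bl A n u S R) (Bl_add hb.n_pos u S R) (Qp inn A n u S R)
    (ell lam A n u) (fun s => if ∃ r ∈ R, vv r < A ∧ Kr A n r = s then ε else 0) (c - 2 * ε)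
    ?_ ?_ ?_ (ell_add hb.n_pos u)
  · refine main.trans ?_
    gcongr
    -- the number of error slots
    have e1 : ∀ s ∈ Finset.range n, ENNReal.ofReal (if ∃ r ∈ R, vv r < A ∧ Kr A n r = s then ε
        else 0) ≤ ∑ r ∈ R, if Kr A n r = s then ENNReal.ofReal ε else 0 := by
      intro s _
      split_ifs with hex
      · obtain ⟨r, hr, _, hrs⟩ := hex
        calc ENNReal.ofReal ε = if Kr A n r = s then ENNReal.ofReal ε else 0 := by rw [if_pos hrs]
          _ ≤ _ := Finset.single_le_sum (f := fun r => if Kr A n r = s then ENNReal.ofReal ε else 0)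
              (fun _ _ => bot_le) hr
      · simp
    refine (Finset.sum_le_sum e1).trans ?_
    rw [Finset.sum_comm]
    calc _ ≤ ∑ _r ∈ R, ENNReal.ofReal ε := by
          refine Finset.sum_le_sum fun r _ => ?_
          rw [Finset.sum_ite_eq]
          split_ifs <;> simp
      _ = _ := by rw [Finset.sum_const, nsmul_eq_mul]
  · -- hQ1
    intro τ s s' hs hs' hl hB
    rw [hQ_neg τ s, hQ_neg τ s', hl]
    · rintro ⟨r, hr, hv, h1, h2, h3⟩
      exact hB ⟨r, hr, hv, by rw [hl, h2, h1], h3⟩
    · rintro ⟨r, hr, hv, h1, h2, h3⟩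
      exact hB ⟨r, hr, hv, by rw [h2, h1], h3⟩
  · -- hQ2
    intro τ s hs
    by_cases hex : ∃ r ∈ R, vv r < A ∧ Kr A n r = s
    · obtain ⟨r, hr, hv, hrs⟩ := hex
      have herr : (if ∃ r ∈ R, vv r < A ∧ Kr A n r = s then ε else 0) = ε :=
        if_pos ⟨r, hr, hv, hrs⟩
      simp only [herr]
      obtain ⟨k1, k2, k3, k4⟩ := hK hr hv
      -- the inner vertex has norm at most `r`
      have hinner : ∀ τ', ‖vtx A n u τ' (s + 1)‖ ≤ r := by
        intro τ'
        unfold vtx
        rw [norm_pt]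
        apply vv_le_of_le hA (hR r hr).1 (hR r hr).2 hv
        · rw [← hrs]; push_cast; exact k2.le
        · rw [← n_hh hb.n_pos]
          refine mul_le_mul_of_nonneg_right ?_ hh0.le
          exact_mod_cast hs
      have hother : ∀ τ', lev τ' s = s + 1 → Qp inn A n u S R τ' s = inn (vtx A n u τ' (s + 1)) := by
        intro τ' hl'
        rw [hQ_neg τ' s, hl']
        rintro ⟨_, _, _, _, h2, _⟩
        omega
      by_cases hpar : (τ + s) % 2 = 0
      · have l0 : lev τ s = s := by unfold lev; rw [if_pos hpar]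
        have l1 : lev (τ + 1) s = s + 1 := by
          unfold lev; rw [if_neg (by omega)]
        by_cases hc : cond A n u S τ r
        · rw [hQ_pos τ s r hr hv hrs l0 hc, hother _ l1]
          refine le_trans (ENNReal.ofReal_le_ofReal (hinn r hr _ _ (hYn τ r hr) (hinner _) ?_))
            le_add_self
          exact hYV τ (τ + 1) r (s + 1) hr hv (by omega) (by omega)
        · rw [hother _ l1, hQ_neg τ s, ← l1]
          · refine (edge_ineq h hb u τ hs ?_).trans le_self_add
            intro t ht hmem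
            obtain ⟨r', hr', hv', hs', hy'⟩ := (hb.crossing hR h.norm_mem u hs ht).2 hmem
            have : r' = r := hb.inj r' hr' r hr hv' hv (hs'.trans hrs.symm)
            subst this
            exact hc ⟨_, Or.inl rfl, Or.inl (hy' ▸ hmem)⟩
          · rintro ⟨r', hr', hv', hs', _, hc'⟩
            have : r' = r := hb.inj r' hr' r hr hv' hv (hs'.trans hrs.symm)
            subst this
            exact hc hc'
      · have l0 : lev τ s = s + 1 := by unfold lev; rw [if_neg hpar]
        have l1 : lev (τ + 1) s = s := by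
          unfold lev; rw [if_pos (by omega)]
        by_cases hc : cond A n u S (τ + 1) r
        · rw [hQ_pos (τ + 1) s r hr hv hrs l1 hc, hother _ l0, dist_comm]
          refine le_trans (ENNReal.ofReal_le_ofReal (hinn r hr _ _ (hYn _ r hr) (hinner _) ?_))
            le_add_self
          exact hYV (τ + 1) τ r (s + 1) hr hv (by omega) (by omega)
        · rw [hother _ l0, hQ_neg (τ + 1) s, ← l0]
          · refine (edge_ineq h hb u τ hs ?_).trans le_self_add
            intro t ht hmem
            obtain ⟨r', hr', hv', hs', hy'⟩ := (hb.crossing hR h.norm_mem u hs ht).2 hmem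
            have : r' = r := hb.inj r' hr' r hr hv' hv (hs'.trans hrs.symm)
            subst this
            refine hc ⟨_, Or.inr rfl, Or.inl ?_⟩
            rw [add_sub_cancel_right]
            exact hy' ▸ hmem
          · rintro ⟨r', hr', hv', hs', _, hc'⟩
            have : r' = r := hb.inj r' hr' r hr hv' hv (hs'.trans hrs.symm)
            subst this
            exact hc hc'
    · rw [hQ_neg τ s, hQ_neg (τ + 1) s]
      · refine (edge_ineq h hb u τ hs ?_).trans le_self_add
        intro t ht hmem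
        obtain ⟨r', hr', hv', hs', hy'⟩ := (hb.crossing hR h.norm_mem u hs ht).2 hmem
        exact hex ⟨r', hr', hv', hs'⟩
      · rintro ⟨r', hr', hv', hs', _, _⟩
        exact hex ⟨r', hr', hv', hs'⟩
      · rintro ⟨r', hr', hv', hs', _, _⟩
        exact hex ⟨r', hr', hv', hs'⟩
  · -- hQ3
    rintro τ s hs (hl | ⟨r, hr, hv, hrκ, hc⟩)
    · have hs0 : s = 0 := by unfold lev at hl; split_ifs at hl; exact hl
      subst hs0
      have hno : ∀ τ', ¬ ∃ r ∈ R, vv r < A ∧ Kr A n r = 0 ∧ lev τ' 0 = 0 ∧ cond A n u S τ' r := by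
        rintro τ' ⟨r, hr, hv, h0, _⟩
        have := (hK hr hv).2.2.1
        omega
      rw [hQ_neg _ _ (hno _), hQ_neg _ _ (hno _), lev_add_two_n, hl, vtx_add hb.n_pos]
      have h1 : ‖vtx A n u τ 0‖ = 1 := by unfold vtx; rw [norm_pt]; simp [rad_zero]
      have := h.far_bd _ h1
      linarith
    · obtain ⟨y, hy, hyS⟩ := hc
      obtain ⟨f1, f2⟩ := far_cond h hyS
      obtain ⟨k1, k2, k3, k4⟩ := hK hr hv
      have hyn : ‖y‖ = r := by
        rcases hy with rfl | rfl <;> exact hYn _ r hr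
      have hcond : cond A n u S τ r := ⟨y, hy, hyS⟩
      by_cases hls : lev τ s = s
      · -- in-type
        have hrs : Kr A n r = s := by rw [hrκ, hls]
        rw [hQ_pos τ s r hr hv hrs hls hcond, hQ_pos (τ + 2 * n) s r hr hv hrs
          (by rw [lev_add_two_n, hls]) ((cond_add hb.n_pos u S τ r).2 hcond), Yp_add hb.n_pos]
        have hclose : ‖y - Yp A n u τ r‖ < δ := by
          rcases hy with rfl | rfl
          · rw [sub_self, norm_zero]
            have := hb.small; nlinarith [hb.A_pos]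
          · rw [norm_sub_rev]; exact hYY τ r hr hv
        have d1 := hinn r hr y (Yp A n u τ r) hyn (hYn τ r hr).le hclose
        have d2 := hinn r hr (-y) (-Yp A n u τ r) (by rw [norm_neg, hyn])
          (by rw [norm_neg, hYn τ r hr]) (by rw [neg_sub_neg, norm_sub_rev]; exact hclose)
        have t1 := dist_triangle (inn y) (inn (Yp A n u τ r)) (inn (-y))
        have t2 := dist_triangle (inn (Yp A n u τ r)) (inn (-Yp A n u τ r)) (inn (-y))
        rw [dist_comm (inn (-Yp A n u τ r)) (inn (-y))] at t2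
        linarith
      · -- out-type
        have hls' : lev τ s = s + 1 := by
          unfold lev at hls ⊢; split_ifs at hls ⊢ <;> omega
        have hno : ∀ τ', lev τ' s = s + 1 →
            ¬ ∃ r ∈ R, vv r < A ∧ Kr A n r = s ∧ lev τ' s = s ∧ cond A n u S τ' r := by
          rintro τ' hl' ⟨_, _, _, _, h2, _⟩
          omega
        have hl2 : lev (τ + 2 * n) s = s + 1 := by rw [lev_add_two_n, hls']
        rw [hQ_neg _ _ (hno _ hls'), hQ_neg _ _ (hno _ hl2), hls', hl2, vtx_add hb.n_pos]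
        have hκ : s + 1 = Kr A n r := by rw [hrκ, hls']
        obtain ⟨n1, n2⟩ := norm_vtx hb u τ (show s + 1 ≤ n from hs)
        obtain ⟨o1, o2⟩ := norm_neg_mem h n2
        rw [h.eq_off _ o1, h.eq_off _ o2]
        have hge : r ≤ ‖vtx A n u τ (s + 1)‖ := by
          unfold vtx
          rw [norm_pt]
          apply le_of_le_vv hA (hR r hr).1 (hR r hr).2 hv
          · rw [hκ]; exact k1.le
          · positivity
        have hclose : ‖y - vtx A n u τ (s + 1)‖ < δ := by
          rcases hy with rfl | rfl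
          · exact hYV τ τ r (s + 1) hr hv (by omega) (Or.inl hκ)
          · exact hYV (τ - 1) τ r (s + 1) hr hv (by omega) (Or.inl hκ)
        have d1 := hout r hr y (vtx A n u τ (s + 1)) hyn hge n1 hclose
        have d2 := hout r hr (-y) (-vtx A n u τ (s + 1)) (by rw [norm_neg, hyn])
          (by rw [norm_neg]; exact hge) (by rw [norm_neg]; exact n1)
          (by rw [neg_sub_neg, norm_sub_rev]; exact hclose)
        have t1 := dist_triangle (out y) (out (vtx A n u τ (s + 1))) (out (-y))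
        have t2 := dist_triangle (out (vtx A n u τ (s + 1))) (out (-vtx A n u τ (s + 1)))
          (out (-y))
        rw [dist_comm (out (-vtx A n u τ (s + 1))) (out (-y))] at t2
        linarith

end Pool.Agent.H70.SD
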