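import Pool.Agent.H70.SD.Amp2

/-!
# Averaging over the shift
-/

open MeasureTheory Set Filter Topology
open scoped ENNReal

noncomputable section

namespace Pool.Agent.H70.SD

lemma lintegral_period {g : ℝ → ℝ≥0∞} (hg : ∀ w, g (w + 2 * Real.pi) = g w) (a : ℝ) :
    ∫⁻ u in Ioo 0 (2 * Real.pi), g (a + u) = ∫⁻ w in Ioo 0 (2 * Real.pi), g w := by
  have hpi := Real.two_pi_pos
  rw [restrict_Ioo_eq_restrict_Ioc]
  have e1 : ∫⁻ u in Ioc 0 (2 * Real.pi), g (a + u) =
      ∫⁻ w in Ioc a (a + 2 * Real.pi), g w := by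
    have h := (measurePreserving_add_left volume a).setLIntegral_comp_emb
      (measurableEmbedding_addLeft a) g (Ioc 0 (2 * Real.pi))
    have : (fun x => a + x) '' Ioc 0 (2 * Real.pi) = Ioc a (a + 2 * Real.pi) := by
      rw [Set.image_const_add_Ioc, add_zero]
    rw [this] at h
    exact h
  rw [e1]
  have h1 := isAddFundamentalDomain_Ioc hpi a volume
  have h2 := isAddFundamentalDomain_Ioc hpi 0 volume
  rw [zero_add] at h2
  refine h1.setLIntegral_eq h2 g ?_
  rintro ⟨z, hz⟩ x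
  obtain ⟨k, rfl⟩ := AddSubgroup.mem_zmultiples_iff.1 hz
  show g (k • (2 * Real.pi) + x) = g x
  have hper : Function.Periodic g (2 * Real.pi) := hg
  rw [add_comm]
  exact hper.zsmul k x

/-- the average over the shift of the speed at the depth `x`. -/
def Phi (lam : ℂ → ℝ≥0∞) (A x : ℝ) : ℝ≥0∞ :=
  ∫⁻ w in Ioo 0 (2 * Real.pi), lam (pt (A * Real.sin x) w) * ENNReal.ofReal (spd A (A * Real.sin x))

lemma measurable_pt : Measurable (fun p : ℝ × ℝ => pt p.1 p.2) := by
  unfold pt rad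
  fun_prop

lemma measurable_spd (A : ℝ) : Measurable (fun v => spd A v) := by
  unfold spd rad
  fun_prop

lemma measurable_Phi_fun {lam : ℂ → ℝ≥0∞} (hm : Measurable lam) (A : ℝ) :
    Measurable (fun p : ℝ × ℝ => lam (pt (A * Real.sin p.1) p.2) *
      ENNReal.ofReal (spd A (A * Real.sin p.1))) := by
  have h1 : Measurable (fun p : ℝ × ℝ => (A * Real.sin p.1, p.2)) := by fun_prop
  have h2 : Measurable (fun p : ℝ × ℝ => A * Real.sin p.1) := by fun_prop
  exact (hm.comp (measurable_pt.comp h1)).mul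
    (ENNReal.measurable_ofReal.comp ((measurable_spd A).comp h2))

lemma measurable_Phi {lam : ℂ → ℝ≥0∞} (hm : Measurable lam) (A : ℝ) :
    Measurable (Phi lam A) := by
  unfold Phi
  exact (measurable_Phi_fun hm A).lintegral_prod_right'

lemma measurable_ell_fun {lam : ℂ → ℝ≥0∞} (hm : Measurable lam) (A : ℝ) (n : ℕ) (τ : ℤ) (s : ℕ) :
    Measurable (fun p : ℝ × ℝ => lam (pt (A * Real.sin (lev τ s * hh n + sg τ s * p.2))
      (τ * hh n + p.1 + p.2)) *
      ENNReal.ofReal (spd A (A * Real.sin (lev τ s * hh n + sg τ s * p.2)))) := by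
  have h1 : Measurable (fun p : ℝ × ℝ => ((lev τ s * hh n + sg τ s * p.2 : ℝ),
      (τ * hh n + p.1 + p.2 : ℝ))) := by fun_prop
  have h2 := (measurable_Phi_fun hm A).comp h1
  exact h2

lemma lintegral_ell {lam : ℂ → ℝ≥0∞} (hm : Measurable lam) (A : ℝ) (n : ℕ) (τ : ℤ) (s : ℕ) :
    ∫⁻ u in Ioo 0 (2 * Real.pi), ell lam A n u τ s =
      ∫⁻ t in Icc 0 (hh n), Phi lam A (lev τ s * hh n + sg τ s * t) := by
  unfold ell
  rw [lintegral_lintegral_swap]
  · refine lintegral_congr fun t => ?_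
    unfold Phi
    have := lintegral_period (g := fun w =>
      lam (pt (A * Real.sin (lev τ s * hh n + sg τ s * t)) w) *
      ENNReal.ofReal (spd A (A * Real.sin (lev τ s * hh n + sg τ s * t))))
      (fun w => by rw [pt_add_two_pi]) (τ * hh n + t)
    rw [← this]
    refine lintegral_congr fun u => ?_
    congr 3
    ring
  · exact (measurable_ell_fun hm A n τ s).aemeasurable

lemma lintegral_slot {g : ℝ → ℝ≥0∞} {n : ℕ} (hn : 0 < n) (τ : ℤ) (s : ℕ) :
    ∫⁻ t in Icc 0 (hh n), g (lev τ s * hh n + sg τ s * t) =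
      ∫⁻ x in Ioc (s * hh n) ((s + 1 : ℕ) * hh n), g x := by
  have hh0 := hh_pos hn
  by_cases h : (τ + s) % 2 = 0
  · have e1 : lev τ s = s := by unfold lev; rw [if_pos h]
    have e2 : sg τ s = 1 := by unfold sg; rw [if_pos h]
    rw [e1, e2, ← restrict_Ioc_eq_restrict_Icc]
    simp only [one_mul]
    have e3 : (fun x => (s * hh n : ℝ) + x) '' Ioc 0 (hh n) =
        Ioc (s * hh n) ((s + 1 : ℕ) * hh n) := by
      rw [Set.image_const_add_Ioc]
      congr 1 <;> push_cast <;> ring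
    rw [← e3]
    exact ((measurePreserving_add_left volume (s * hh n : ℝ)).setLIntegral_comp_emb
      (measurableEmbedding_addLeft _) g _)
  · have e1 : lev τ s = s + 1 := by unfold lev; rw [if_neg h]
    have e2 : sg τ s = -1 := by unfold sg; rw [if_neg h]
    rw [e1, e2]
    have e3 : (fun x => (((s + 1 : ℕ) : ℝ) * hh n : ℝ) - x) '' Icc 0 (hh n) =
        Icc (s * hh n) ((s + 1 : ℕ) * hh n) := by
      rw [Set.image_const_sub_Icc]
      congr 1 <;> push_cast <;> ring
    rw [restrict_Ioc_eq_restrict_Icc, ← e3]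
    have := ((Measure.measurePreserving_sub_left volume
      (((s + 1 : ℕ) : ℝ) * hh n : ℝ)).setLIntegral_comp_emb
      (MeasurableEquiv.subLeft _).measurableEmbedding g (Icc 0 (hh n)))
    rw [← this]
    refine lintegral_congr fun t => ?_
    congr 1
    ring

lemma lintegral_slots {g : ℝ → ℝ≥0∞} {h : ℝ} (hh0 : 0 < h) (n : ℕ) :
    ∑ s ∈ Finset.range n, ∫⁻ x in Ioc (s * h) ((s + 1 : ℕ) * h), g x =
      ∫⁻ x in Ioc 0 (n * h), g x := by
  induction n with
  | zero => simp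
  | succ n ih =>
    rw [Finset.sum_range_succ, ih, ← lintegral_union measurableSet_Ioc]
    · rw [Ioc_union_Ioc_eq_Ioc (by positivity) (by push_cast; nlinarith)]
    · rw [Set.disjoint_left]
      rintro x ⟨_, h1⟩ ⟨h2, _⟩
      linarith

lemma sum_ell {lam : ℂ → ℝ≥0∞} (hm : Measurable lam) (A : ℝ) {n : ℕ} (hn : 0 < n) (τ : ℤ) :
    ∑ s ∈ Finset.range n, ∫⁻ u in Ioo 0 (2 * Real.pi), ell lam A n u τ s =
      ∫⁻ x in Ioo 0 (Real.pi / 2), Phi lam A x := by
  have h1 : ∀ s ∈ Finset.range n, ∫⁻ u in Ioo 0 (2 * Real.pi), ell lam A n u τ s =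
      ∫⁻ x in Ioc (s * hh n) ((s + 1 : ℕ) * hh n), Phi lam A x := by
    intro s _
    rw [lintegral_ell hm, lintegral_slot hn]
  rw [Finset.sum_congr rfl h1, lintegral_slots (hh_pos hn), n_hh hn, restrict_Ioo_eq_restrict_Ioc]

lemma measurable_ell {lam : ℂ → ℝ≥0∞} (hm : Measurable lam) (A : ℝ) (n : ℕ) (τ : ℤ) (s : ℕ) :
    Measurable (fun u => ell lam A n u τ s) := by
  unfold ell
  exact (measurable_ell_fun hm A n τ s).lintegral_prod_right'

lemma tendsto_hh : Tendsto hh atTop (𝓝 0) := by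
  have h1 : Tendsto (fun n : ℕ => (Real.pi / 2) / (n : ℝ)) atTop (𝓝 0) :=
    tendsto_const_div_atTop_nhds_zero_nat _
  refine h1.congr fun n => ?_
  unfold hh
  rw [div_div]

lemma exists_big {A : ℝ} (hA : 0 < A) {R : Finset ℝ} (hR : ∀ r ∈ R, 0 < r ∧ r < 1)
    (hgen : ∀ r ∈ R, ∀ n κ : ℕ, rad (A * Real.sin (κ * hh n)) ≠ r) {δ : ℝ} (hδ : 0 < δ) :
    ∃ n, Big A n R δ := by
  have key : ∀ {q : ℝ}, 0 < q → ∀ᶠ n in atTop, hh n < q := fun hq =>
    tendsto_hh.eventually_lt_const hq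
  have h1 : ∀ᶠ n : ℕ in atTop, 0 < n := eventually_gt_atTop 0
  have h2 : ∀ᶠ n in atTop, ∀ r ∈ R, vv r < A → hh n < xr A r := by
    rw [eventually_all_finset]
    intro r hr
    by_cases hv : vv r < A
    · filter_upwards [key (xr_facts (hR r hr).1 (hR r hr).2 hv).1] with n hn _ using hn
    · exact Eventually.of_forall fun n h => absurd h hv
  have h3 : ∀ᶠ n in atTop, ∀ r ∈ R, ∀ r' ∈ R, vv r < A → vv r' < A → Kr A n r = Kr A n r' →
      r = r' := by
    rw [eventually_all_finset]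
    intro r hr
    rw [eventually_all_finset]
    intro r' hr'
    by_cases hv : vv r < A
    · by_cases hv' : vv r' < A
      · by_cases he : r = r'
        · exact Eventually.of_forall fun n _ _ _ => he
        · obtain ⟨x1, x2, x3⟩ := xr_facts (hR r hr).1 (hR r hr).2 hv
          obtain ⟨y1, y2, y3⟩ := xr_facts (hR r' hr').1 (hR r' hr').2 hv'
          have hne : xr A r ≠ xr A r' := by
            intro h
            apply he
            rw [← rad_vv (hR r hr).1, ← rad_vv (hR r' hr').1, ← x3, ← y3, h]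
          have hpos : 0 < |xr A r - xr A r'| := abs_pos.2 (sub_ne_zero.2 hne)
          filter_upwards [key hpos, h1] with n hn hn0 _ _ hK
          exfalso
          have hh0 := hh_pos hn0
          have f1 : (Kr A n r : ℝ) ≤ xr A r / hh n := Nat.floor_le (by positivity)
          have f2 : xr A r / hh n < Kr A n r + 1 := Nat.lt_floor_add_one _
          have g1 : (Kr A n r' : ℝ) ≤ xr A r' / hh n := Nat.floor_le (by positivity)
          have g2 : xr A r' / hh n < Kr A n r' + 1 := Nat.lt_floor_add_one _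
          rw [le_div_iff₀ hh0] at f1 g1
          rw [div_lt_iff₀ hh0] at f2 g2
          rw [hK] at f1 f2
          have : |xr A r - xr A r'| < hh n := by
            rw [abs_lt]
            constructor <;> nlinarith
          linarith
      · exact Eventually.of_forall fun n _ h => absurd h hv'
    · exact Eventually.of_forall fun n h => absurd h hv
  have h4 : ∀ᶠ n in atTop, (A + 2) * hh n < δ := by
    filter_upwards [key (show 0 < δ / (A + 2) by positivity)] with n hn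
    rw [lt_div_iff₀ (by positivity)] at hn
    linarith
  obtain ⟨n, n1, n2, n3, n4⟩ := (h1.and (h2.and (h3.and h4))).exists
  exact ⟨n, hA, n1, fun r hr κ => hgen r hr n κ, n2, n3, n4⟩

theorem avg_ineq {X : Type*} [PseudoMetricSpace X] {c : ℝ} {S : Set ℂ} {R : Finset ℝ}
    {inn out : ℂ → X} {lam : ℂ → ℝ≥0∞} (h : SlitData c S R inn out lam) {A : ℝ} (hA : 0 < A)
    (hgen : ∀ r ∈ R, ∀ n κ : ℕ, rad (A * Real.sin (κ * hh n)) ≠ r) :
    ENNReal.ofReal (Real.pi * c) ≤ ∫⁻ x in Ioo 0 (Real.pi / 2), Phi lam A x := by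
  -- the inequality with an error
  have key : ∀ ε : ℝ, 0 < ε → ENNReal.ofReal (Real.pi * (c - 2 * ε)) ≤
      (∫⁻ x in Ioo 0 (Real.pi / 2), Phi lam A x) +
        ENNReal.ofReal (2 * Real.pi * R.card * ε) := by
    intro ε hε
    have h1 : ∃ δ > 0, ∀ r ∈ R, ∀ z w : ℂ, ‖z‖ = r → ‖w‖ ≤ r → ‖z - w‖ < δ →
        dist (inn z) (inn w) ≤ ε := by
      have : ∀ᶠ δ in 𝓝[>] (0 : ℝ), ∀ r ∈ R, ∀ z w : ℂ, ‖z‖ = r → ‖w‖ ≤ r → ‖z - w‖ < δ →
          dist (inn z) (inn w) ≤ ε := by
        rw [eventually_all_finset]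
        intro r hr
        obtain ⟨d, hd, hd'⟩ := h.unif_inn (h.rad_mem r hr).2.le hε
        filter_upwards [Ioo_mem_nhdsGT hd] with δ hδ z w hz hw hzw
        exact hd' z w hz hw (hzw.trans hδ.2)
      obtain ⟨δ, hδ, hδ0⟩ := (this.and self_mem_nhdsWithin).exists
      exact ⟨δ, hδ0, hδ⟩
    have h2 : ∃ δ > 0, ∀ r ∈ R, ∀ z w : ℂ, ‖z‖ = r → r ≤ ‖w‖ → ‖w‖ ≤ 1 → ‖z - w‖ < δ →
        dist (out z) (out w) ≤ ε := by
      have : ∀ᶠ δ in 𝓝[>] (0 : ℝ), ∀ r ∈ R, ∀ z w : ℂ, ‖z‖ = r → r ≤ ‖w‖ → ‖w‖ ≤ 1 →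
          ‖z - w‖ < δ → dist (out z) (out w) ≤ ε := by
        rw [eventually_all_finset]
        intro r hr
        obtain ⟨d, hd, hd'⟩ := h.unif_out (h.rad_mem r hr).2.le hε
        filter_upwards [Ioo_mem_nhdsGT hd] with δ hδ z w hz hw hw1 hzw
        exact hd' z w hz hw hw1 (hzw.trans hδ.2)
      obtain ⟨δ, hδ, hδ0⟩ := (this.and self_mem_nhdsWithin).exists
      exact ⟨δ, hδ0, hδ⟩
    obtain ⟨δ1, hδ1, hinn⟩ := h1
    obtain ⟨δ2, hδ2, hout⟩ := h2
    obtain ⟨n, hb⟩ := exists_big hA h.rad_mem hgen (lt_min hδ1 hδ2)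
    have hn := hb.n_pos
    have hnR : (0 : ℝ) < n := by exact_mod_cast hn
    have main := fun u => amp_ineq h hε hb
      (fun r hr z w h1 h2 h3 => hinn r hr z w h1 h2 (h3.trans_le (min_le_left _ _)))
      (fun r hr z w h1 h2 h3 h4 => hout r hr z w h1 h2 h3 (h4.trans_le (min_le_right _ _))) u
    -- integrate over `u`
    have e1 : ∫⁻ _u in Ioo 0 (2 * Real.pi), (n * (2 * ENNReal.ofReal (c - 2 * ε)) : ℝ≥0∞) ≤
        ∫⁻ u in Ioo 0 (2 * Real.pi), (∑ τ ∈ Finset.range (4 * n), ∑ s ∈ Finset.range n,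
          ell lam A n u τ s + (4 * n : ℕ) * (R.card * ENNReal.ofReal ε)) :=
      lintegral_mono fun u => main u
    rw [setLIntegral_const, lintegral_add_right _ measurable_const, setLIntegral_const,
      Real.volume_Ioo, sub_zero] at e1
    have e2 : ∫⁻ u in Ioo 0 (2 * Real.pi), ∑ τ ∈ Finset.range (4 * n), ∑ s ∈ Finset.range n,
        ell lam A n u τ s = (4 * n : ℕ) * ∫⁻ x in Ioo 0 (Real.pi / 2), Phi lam A x := by
      rw [lintegral_finsetSum _ fun (τ : ℕ) _ => Finset.measurable_sum _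
        fun s _ => measurable_ell h.meas A n τ s]
      have e3 : ∀ τ ∈ Finset.range (4 * n), ∫⁻ u in Ioo 0 (2 * Real.pi),
          ∑ s ∈ Finset.range n, ell lam A n u τ s =
            ∫⁻ x in Ioo 0 (Real.pi / 2), Phi lam A x := fun τ _ => by
        rw [lintegral_finsetSum _ fun s _ => measurable_ell h.meas A n τ s]
        exact sum_ell h.meas A hn τ
      rw [Finset.sum_congr rfl e3, Finset.sum_const, Finset.card_range, nsmul_eq_mul]
    rw [e2] at e1
    set I := ∫⁻ x in Ioo 0 (Real.pi / 2), Phi lam A x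
    -- divide by `4 n`
    have h4n : ((4 * n : ℕ) : ℝ≥0∞) ≠ 0 := by
      have : 4 * n ≠ 0 := by omega
      exact_mod_cast this
    have h4n' : ((4 * n : ℕ) : ℝ≥0∞) ≠ ⊤ := ENNReal.natCast_ne_top _
    rw [← ENNReal.mul_le_mul_iff_right h4n h4n', mul_add]
    calc _ = (n : ℝ≥0∞) * (2 * ENNReal.ofReal (c - 2 * ε)) * ENNReal.ofReal (2 * Real.pi) := by
          rw [ENNReal.ofReal_mul Real.pi_pos.le, ENNReal.ofReal_mul (by norm_num : (0:ℝ) ≤ 2)]
          push_cast
          rw [ENNReal.ofReal_ofNat]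
          ring
      _ ≤ _ := e1
      _ = _ := by
          congr 1
          rw [ENNReal.ofReal_mul (show (0 : ℝ) ≤ 2 * Real.pi * R.card by positivity),
            ENNReal.ofReal_mul (show (0 : ℝ) ≤ 2 * Real.pi by positivity),
            ENNReal.ofReal_natCast]
          ring
  -- let `ε` tend to zero
  have t1 : Tendsto (fun ε : ℝ => ENNReal.ofReal (Real.pi * (c - 2 * ε))) (𝓝[>] 0)
      (𝓝 (ENNReal.ofReal (Real.pi * (c - 2 * 0)))) := by
    refine (ENNReal.continuous_ofReal.tendsto _).comp ?_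
    refine Tendsto.mono_left ?_ nhdsWithin_le_nhds
    exact (Continuous.tendsto (by fun_prop) 0)
  have t2 : Tendsto (fun ε : ℝ => (∫⁻ x in Ioo 0 (Real.pi / 2), Phi lam A x) +
      ENNReal.ofReal (2 * Real.pi * R.card * ε)) (𝓝[>] 0)
      (𝓝 ((∫⁻ x in Ioo 0 (Real.pi / 2), Phi lam A x) +
        ENNReal.ofReal (2 * Real.pi * R.card * 0))) := by
    refine Tendsto.const_add _ ((ENNReal.continuous_ofReal.tendsto _).comp ?_)
    refine Tendsto.mono_left ?_ nhdsWithin_le_nhds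
    exact (Continuous.tendsto (by fun_prop) 0)
  have := le_of_tendsto_of_tendsto t1 t2 (by
    filter_upwards [self_mem_nhdsWithin] with ε hε using key ε hε)
  simpa using this

/-- The exceptional amplitudes are negligible. -/
lemma ae_generic {R : Finset ℝ} (hR : ∀ r ∈ R, 0 < r ∧ r < 1) :
    ∀ᵐ A : ℝ, ∀ r ∈ R, ∀ n κ : ℕ, rad (A * Real.sin (κ * hh n)) ≠ r := by
  have : ∀ r ∈ R, ∀ᵐ A : ℝ, ∀ n κ : ℕ, rad (A * Real.sin (κ * hh n)) ≠ r := by
    intro r hr
    rw [ae_all_iff]; intro n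
    rw [ae_all_iff]; intro κ
    have hsub : {A : ℝ | rad (A * Real.sin (κ * hh n)) = r}.Subsingleton := by
      intro A hA B hB
      have h0 := vv_pos (hR r hr).1 (hR r hr).2
      have h1 : A * Real.sin (κ * hh n) = vv r := eq_vv (hR r hr).1 hA
      have h2 : B * Real.sin (κ * hh n) = vv r := eq_vv (hR r hr).1 hB
      have h3 : Real.sin (κ * hh n) ≠ 0 := by
        intro h; rw [h, mul_zero] at h1; linarith
      exact mul_right_cancel₀ h3 (h1.trans h2.symm)
    have := hsub.measure_zero volume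
    rw [ae_iff]
    simpa using this
  exact (Finset.eventually_all R).2 this

end Pool.Agent.H70.SD
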