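import Mathlib

/-!
# The brick wall lemma

`n` strands move in the slots `0, …, n-1`. At the time `τ : ℤ` the slots `κ - 1` and `κ` are
adjacent to the vertex `(τ, κ)` for `κ ≡ τ` modulo `2`; the strands in these two slots are either
exchanged or not. `B τ κ` says that the vertex `(τ, κ)` is blocked: no exchange is allowed there.
-/

namespace Pool.Agent.H70.SD

/-- The level of the end at time `τ` of the edge in the slot `s`. -/
def lev (τ : ℤ) (s : ℕ) : ℕ := if (τ + s) % 2 = 0 then s else s + 1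

/-- A resolution of the brick wall network into `n` closed strands with period `2 n`. -/
structure Res (n : ℕ) (B : ℤ → ℕ → Prop) (p : Fin n → ℤ → ℕ) : Prop where
  lt : ∀ a τ, p a τ < n
  inj : ∀ τ, Function.Injective fun a => p a τ
  per : ∀ a τ, p a (τ + 2 * n) = p a τ
  cont : ∀ a τ, lev τ (p a (τ - 1)) = lev τ (p a τ)
  block : ∀ a τ, B τ (lev τ (p a τ)) → p a τ = p a (τ - 1)
  contact : ∀ a, ∃ τ, lev τ (p a τ) = 0 ∨ B τ (lev τ (p a τ))

lemma lev_eq_cases {τ : ℤ} {s s' : ℕ} (h : lev τ s = lev τ s') : s = s' ∨ s' = s + 1 ∨ s = s' + 1 := by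
  unfold lev at h
  split_ifs at h <;> omega

/-- position of the free ray: depth at time offset `x`. -/
def kk (n : ℕ) (x : ℤ) : ℕ := (x % (2 * n)).toNat

lemma kk_lt {n : ℕ} (hn : 0 < n) (x : ℤ) : kk n x < 2 * n := by
  have h1 := Int.emod_lt_of_pos x (show (0 : ℤ) < 2 * n by omega)
  have h2 := Int.emod_nonneg x (show (2 * n : ℤ) ≠ 0 by omega)
  unfold kk; omega

lemma kk_cast {n : ℕ} (hn : 0 < n) (x : ℤ) : (kk n x : ℤ) = x % (2 * n) := by
  have h2 := Int.emod_nonneg x (show (2 * n : ℤ) ≠ 0 by omega)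
  unfold kk; omega

lemma kk_succ {n : ℕ} (hn : 0 < n) (x : ℤ) :
    (kk n (x - 1) + 1 = kk n x) ∨ (kk n x = 0 ∧ kk n (x - 1) = 2 * n - 1) := by
  have hN : (0 : ℤ) < 2 * n := by omega
  have e := kk_cast hn x
  have e1 := kk_cast hn (x - 1)
  have l1 := kk_lt hn (x - 1)
  have l0 := kk_lt hn x
  have d := Int.emod_add_mul_ediv x (2 * n)
  have d1 := Int.emod_add_mul_ediv (x - 1) (2 * n)
  rw [← e] at d
  rw [← e1] at d1
  -- kk x + 2n q = x, kk (x-1) + 2n q' = x - 1
  set q := x / (2 * n : ℤ)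
  set q' := (x - 1) / (2 * n : ℤ)
  have hq : q' = q ∨ q' = q - 1 := by
    have h1 : (2 * n : ℤ) * (q - q') < 2 * (2 * n) := by
      have : (2 * n : ℤ) * (q - q') = kk n (x - 1) - kk n x + 1 := by linarith [mul_sub (2 * n : ℤ) q q']
      rw [this]; omega
    have h2 : -(2 * n : ℤ) < (2 * n : ℤ) * (q - q') := by
      have : (2 * n : ℤ) * (q - q') = kk n (x - 1) - kk n x + 1 := by linarith [mul_sub (2 * n : ℤ) q q']
      rw [this]; omega
    have h3 : q - q' < 2 := by
      by_contra hc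
      push Not at hc
      nlinarith
    have h4 : -1 < q - q' := by
      by_contra hc
      push Not at hc
      nlinarith
    omega
  rcases hq with hq | hq
  · left
    rw [hq] at d1
    have : (kk n (x - 1) : ℤ) + 1 = kk n x := by linarith
    exact_mod_cast this
  · rw [hq] at d1
    have h5 : (kk n (x - 1) : ℤ) + 1 = kk n x + 2 * n := by linarith [mul_sub (2 * n : ℤ) q 1]
    right
    omega

lemma kk_per {n : ℕ} (x : ℤ) : kk n (x + 2 * n) = kk n x := by
  unfold kk
  simp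

lemma kk_parity {n : ℕ} (hn : 0 < n) (x : ℤ) : (kk n x : ℤ) % 2 = x % 2 := by
  rw [kk_cast hn]
  exact Int.emod_emod_of_dvd x ⟨n, rfl⟩

/-- the free resolution -/
def freeP (n : ℕ) (a : Fin n) (τ : ℤ) : ℕ :=
  if kk n (τ - 2 * a) < n then kk n (τ - 2 * a) else 2 * n - 1 - kk n (τ - 2 * a)

lemma free_res {n : ℕ} (hn : 0 < n) : Res n (fun _ _ => False) (freeP n) where
  lt a τ := by
    have := kk_lt hn (τ - 2 * a)
    unfold freeP; split_ifs <;> omega
  inj τ a b h := by
    have ha := kk_lt hn (τ - 2 * a)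
    have hb := kk_lt hn (τ - 2 * b)
    have pa := kk_parity hn (τ - 2 * a)
    have pb := kk_parity hn (τ - 2 * b)
    have key : kk n (τ - 2 * a) = kk n (τ - 2 * b) := by
      simp only [freeP] at h
      split_ifs at h <;> omega
    have ca := kk_cast hn (τ - 2 * a)
    have cb := kk_cast hn (τ - 2 * b)
    have h1 : (τ - 2 * a) % (2 * n : ℤ) = (τ - 2 * b) % (2 * n : ℤ) := by rw [← ca, ← cb, key]
    have h2 : (2 * n : ℤ) ∣ (τ - 2 * b) - (τ - 2 * a) := Int.ModEq.dvd (n := 2 * n) h1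
    obtain ⟨c, hc⟩ := h2
    have h3 : (a : ℤ) - b = n * c := by
      have : (2 : ℤ) * ((a : ℤ) - b) = 2 * (n * c) := by linarith
      linarith
    have a1 := a.2
    have b1 := b.2
    have hc0 : c = 0 := by
      by_contra hc0
      rcases lt_or_gt_of_ne hc0 with h | h
      · have : (n : ℤ) * c ≤ n * (-1) := by nlinarith
        omega
      · have : (n : ℤ) * c ≥ n * 1 := by nlinarith
        omega
    ext
    rw [hc0] at h3
    have : (a : ℤ) = b := by linarith
    exact_mod_cast this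
  per a τ := by
    simp only [freeP]
    rw [show τ + 2 * (n : ℤ) - 2 * (a : ℤ) = (τ - 2 * a) + 2 * n by ring, kk_per]
  cont a τ := by
    have l0 := kk_lt hn (τ - 2 * a)
    have l1 := kk_lt hn (τ - 1 - 2 * a)
    have p0 := kk_parity hn (τ - 2 * a)
    have p1 := kk_parity hn (τ - 1 - 2 * a)
    have s := kk_succ hn (τ - 2 * a)
    rw [show τ - 2 * (a : ℤ) - 1 = τ - 1 - 2 * a by ring] at s
    simp only [freeP, lev]
    split_ifs <;> omega
  block a τ h := h.elim
  contact a := ⟨2 * a, Or.inl (by simp [freeP, kk, lev, hn])⟩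

/-- all slots are occupied -/
lemma Res.surj {n : ℕ} {B : ℤ → ℕ → Prop} {p : Fin n → ℤ → ℕ} (h : Res n B p) (τ : ℤ) {s : ℕ}
    (hs : s < n) : ∃ a, p a τ = s := by
  have hinj : Function.Injective (fun a : Fin n => (⟨p a τ, h.lt a τ⟩ : Fin n)) := by
    intro a b hab
    exact h.inj τ (by simpa using hab)
  obtain ⟨a, ha⟩ := (Finite.injective_iff_surjective.1 hinj) ⟨s, hs⟩
  exact ⟨a, by simpa using ha⟩

/-- If `a` is below `b` before time `τ0` and above after, the two strands cross again. -/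
lemma Res.cross_again {n : ℕ} (hn : 0 < n) {B : ℤ → ℕ → Prop} {p : Fin n → ℤ → ℕ} (h : Res n B p)
    {a b : Fin n} (hab : a ≠ b) {τ0 : ℤ} (h0 : p a (τ0 - 1) < p b (τ0 - 1))
    (h1 : p b τ0 < p a τ0) :
    ∃ k : ℕ, 0 < k ∧ k < 2 * n ∧ p b (τ0 + k - 1) < p a (τ0 + k - 1) ∧ p a (τ0 + k) < p b (τ0 + k) := by
  by_contra hc
  push Not at hc
  have key : ∀ k : ℕ, k < 2 * n → p b (τ0 + k) < p a (τ0 + k) := by
    intro k
    induction k with
    | zero => intro _; simpa using h1
    | succ k ih =>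
      intro hk
      have h2 := ih (by omega)
      have h3 := hc (k + 1) (by omega) hk (by
        rw [show τ0 + ((k + 1 : ℕ) : ℤ) - 1 = τ0 + k by push_cast; ring]; exact h2)
      refine lt_of_le_of_ne h3 fun he => hab ?_
      exact (h.inj (τ0 + ((k + 1 : ℕ) : ℤ)) he).symm
  have h4 := key (2 * n - 1) (by omega)
  rw [show τ0 + ((2 * n - 1 : ℕ) : ℤ) = (τ0 - 1) + 2 * n by omega, h.per, h.per] at h4
  omega

/-- the switch of the strands `a` and `b` on the time set `J` -/
def sw {n : ℕ} (p : Fin n → ℤ → ℕ) (a b : Fin n) (J : ℤ → Prop) [DecidablePred J] (c : Fin n)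
    (τ : ℤ) : ℕ := if J τ then p (Equiv.swap a b c) τ else p c τ

lemma Res.per_of_eq {n : ℕ} {B : ℤ → ℕ → Prop} {p : Fin n → ℤ → ℕ} (h : Res n B p) (c : Fin n)
    {τ τ' q : ℤ} (e : τ = τ' + 2 * n * q) : p c τ = p c τ' := by
  subst e
  induction q using Int.induction_on with
  | zero => simp
  | succ i ih => rw [← ih, ← h.per c (τ' + 2 * n * i)]; congr 1; ring
  | pred i ih =>
    rw [← ih, ← h.per c (τ' + 2 * n * (-i - 1))]; congr 1; ring

lemma lev_per {n : ℕ} {τ τ' q : ℤ} (e : τ = τ' + 2 * n * q) (s : ℕ) : lev τ s = lev τ' s := by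
  have : (τ + s) % 2 = (τ' + s) % 2 := by
    rw [e, show τ' + 2 * n * q + s = τ' + s + 2 * (n * q) by ring, Int.add_mul_emod_self_left]
  simp only [lev, this]

lemma eq_of_emod {n : ℕ} {x y : ℤ} (h : x % (2 * n : ℤ) = y % (2 * n : ℤ)) :
    ∃ q, x = y + 2 * n * q := by
  obtain ⟨q, hq⟩ := Int.ModEq.dvd (n := 2 * n) h.symm
  exact ⟨q, by linarith⟩

lemma eq_kk {n : ℕ} (hn : 0 < n) (τ τ0 : ℤ) : ∃ q, τ = (τ0 + kk n (τ - τ0)) + 2 * n * q := by
  refine ⟨(τ - τ0) / (2 * n), ?_⟩
  have := Int.emod_add_mul_ediv (τ - τ0) (2 * n)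
  rw [kk_cast hn]
  linarith

lemma Res.switch {n : ℕ} (hn : 0 < n) {B : ℤ → ℕ → Prop} {p : Fin n → ℤ → ℕ} (h : Res n B p)
    {a b : Fin n} (hab : a ≠ b) {τ0 : ℤ} {s : ℕ} (hs : lev τ0 s = s + 1)
    (ha0 : p a (τ0 - 1) = s) (ha1 : p a τ0 = s + 1) (hb0 : p b (τ0 - 1) = s + 1)
    (hb1 : p b τ0 = s) :
    ∃ p', Res n (fun τ κ => B τ κ ∨ (τ % (2 * n) = τ0 % (2 * n) ∧ κ = s + 1)) p' := by
  classical
  obtain ⟨k1, hk0, hkn, hc0, hc1⟩ := h.cross_again hn hab (τ0 := τ0) (by omega) (by omega)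
  set τ1 : ℤ := τ0 + k1 with hτ1
  have hs' : lev τ0 (s + 1) = s + 1 := by
    unfold lev at hs ⊢
    split_ifs at hs ⊢ <;> omega
  -- values at `τ1`
  have ca := lev_eq_cases (h.cont a τ1)
  have cb := lev_eq_cases (h.cont b τ1)
  have eab : p a τ1 = p b (τ1 - 1) := by omega
  have eba : p b τ1 = p a (τ1 - 1) := by omega
  set J : ℤ → Prop := fun τ => kk n (τ - τ0) < k1 with hJ
  -- the transitions
  have enter : ∀ τ, J τ → ¬ J (τ - 1) → ∃ q, τ = τ0 + 2 * n * q := by
    intro τ h1 h2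
    have hs := kk_succ hn (τ - τ0)
    rw [show τ - τ0 - 1 = τ - 1 - τ0 by ring] at hs
    simp only [hJ] at h1 h2
    obtain ⟨q, hq⟩ := eq_kk hn τ τ0
    have : kk n (τ - τ0) = 0 := by omega
    rw [this] at hq
    exact ⟨q, by simpa using hq⟩
  have exit' : ∀ τ, ¬ J τ → J (τ - 1) → ∃ q, τ = τ1 + 2 * n * q := by
    intro τ h1 h2
    have hs := kk_succ hn (τ - τ0)
    rw [show τ - τ0 - 1 = τ - 1 - τ0 by ring] at hs
    simp only [hJ] at h1 h2
    obtain ⟨q, hq⟩ := eq_kk hn τ τ0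
    have : kk n (τ - τ0) = k1 := by omega
    rw [this] at hq
    exact ⟨q, hq⟩
  have hJ0 : ∀ q : ℤ, J (τ0 + 2 * n * q) := by
    intro q
    have : kk n (τ0 + 2 * n * q - τ0) = 0 := by
      unfold kk
      rw [show τ0 + 2 * n * q - τ0 = 2 * n * q by ring]
      simp
    simp only [hJ, this]; exact hk0
  have hJ1 : ∀ q : ℤ, ¬ J (τ0 + 2 * n * q - 1) := by
    intro q
    have h0 : kk n (τ0 + 2 * n * q - τ0) = 0 := by
      unfold kk
      rw [show τ0 + 2 * n * q - τ0 = 2 * n * q by ring]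
      simp
    have hs := kk_succ hn (τ0 + 2 * n * q - τ0)
    rw [show τ0 + 2 * n * q - τ0 - 1 = τ0 + 2 * n * q - 1 - τ0 by ring] at hs
    simp only [hJ]; omega
  have E1 : ∀ c, c = a ∨ c = b → ∀ q : ℤ, p c (τ0 + 2 * n * q - 1) =
      p (Equiv.swap a b c) (τ0 + 2 * n * q) := by
    intro c hc q
    rw [h.per_of_eq c (τ' := τ0 - 1) (q := q) (by ring),
      h.per_of_eq (Equiv.swap a b c) (τ' := τ0) (q := q) (by ring)]
    rcases hc with rfl | rfl
    · rw [Equiv.swap_apply_left]; omega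
    · rw [Equiv.swap_apply_right]; omega
  have E2 : ∀ c, c = a ∨ c = b → ∀ q : ℤ, p (Equiv.swap a b c) (τ1 + 2 * n * q - 1) =
      p c (τ1 + 2 * n * q) := by
    intro c hc q
    rw [h.per_of_eq (Equiv.swap a b c) (τ' := τ1 - 1) (q := q) (by ring),
      h.per_of_eq c (τ' := τ1) (q := q) (by ring)]
    rcases hc with rfl | rfl
    · rw [Equiv.swap_apply_left]; omega
    · rw [Equiv.swap_apply_right]; omega
  have hne : ∀ c, ¬ (c = a ∨ c = b) → Equiv.swap a b c = c := by
    intro c hc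
    push Not at hc
    exact Equiv.swap_apply_of_ne_of_ne hc.1 hc.2
  -- outside of the transitions of `a`, `b`
  have key : ∀ c τ, (sw p a b J c τ = sw p a b J c (τ - 1)) ∨
      ∃ d, sw p a b J c τ = p d τ ∧ sw p a b J c (τ - 1) = p d (τ - 1) := by
    intro c τ
    by_cases hcab : c = a ∨ c = b
    · by_cases h1 : J τ <;> by_cases h2 : J (τ - 1)
      · right; exact ⟨Equiv.swap a b c, by simp [sw, h1], by simp [sw, h2]⟩
      · left
        obtain ⟨q, hq⟩ := enter τ h1 h2
        simp only [sw, h1, h2, if_true, if_false]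
        rw [hq]
        exact (E1 c hcab q).symm
      · left
        obtain ⟨q, hq⟩ := exit' τ h1 h2
        simp only [sw, h1, h2, if_true, if_false]
        rw [hq]
        exact (E2 c hcab q).symm
      · right; exact ⟨c, by simp [sw, h1], by simp [sw, h2]⟩
    · right
      refine ⟨c, ?_, ?_⟩
      · simp [sw, hne c hcab]
      · simp [sw, hne c hcab]
  refine ⟨sw p a b J, ?_, ?_, ?_, ?_, ?_, ?_⟩
  · intro c τ
    unfold sw
    split_ifs
    · exact h.lt _ _
    · exact h.lt _ _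
  · intro τ c d hcd
    simp only [sw] at hcd
    split_ifs at hcd
    · exact (Equiv.swap a b).injective (h.inj τ hcd)
    · exact h.inj τ hcd
  · intro c τ
    have : J (τ + 2 * n) ↔ J τ := by
      simp only [hJ]
      rw [show τ + 2 * (n : ℤ) - τ0 = τ - τ0 + 2 * n by ring, kk_per]
    simp only [sw, this, h.per]
  · intro c τ
    rcases key c τ with h1 | ⟨d, h1, h2⟩
    · rw [h1]
    · rw [h1, h2]; exact h.cont d τ
  · rintro c τ (hB | ⟨h1, h2⟩)
    · rcases key c τ with h1 | ⟨d, h1, h2⟩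
      · exact h1
      · rw [h1] at hB ⊢
        rw [h2]
        exact h.block d τ hB
    · obtain ⟨q, hq⟩ := eq_of_emod h1
      have j0 := hJ0 q
      have j1 := hJ1 q
      rw [← hq] at j0 j1
      by_cases hcab : c = a ∨ c = b
      · simp only [sw, j0, j1, if_true, if_false]
        rw [hq]
        exact (E1 c hcab q).symm
      · exfalso
        simp only [sw, j0, if_true, hne c hcab] at h2
        rw [hq, lev_per (τ' := τ0) (q := q) rfl, h.per_of_eq c (τ' := τ0) (q := q) rfl] at h2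
        have h3 : p c τ0 = s ∨ p c τ0 = s + 1 := by
          unfold lev at h2 hs
          split_ifs at h2 hs <;> omega
        rcases h3 with h3 | h3
        · exact hcab (Or.inr (h.inj τ0 (by simp only [h3, hb1])))
        · exact hcab (Or.inl (h.inj τ0 (by simp only [h3, ha1])))
  · intro c
    by_cases hcab : c = a ∨ c = b
    · refine ⟨τ0, Or.inr (Or.inr ⟨rfl, ?_⟩)⟩
      have j0 := hJ0 0
      rw [mul_zero, add_zero] at j0
      simp only [sw, j0, if_true]
      rcases hcab with rfl | rfl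
      · rw [Equiv.swap_apply_left, hb1, hs]
      · rw [Equiv.swap_apply_right, ha1, hs']
    · obtain ⟨τ, hτ⟩ := h.contact c
      refine ⟨τ, ?_⟩
      have : sw p a b J c τ = p c τ := by simp [sw, hne c hcab]
      rw [this]
      exact hτ.imp_right Or.inl

lemma exists_res_step {n : ℕ} (hn : 0 < n) {B : ℤ → ℕ → Prop}
    (v : ℤ × ℕ) {p : Fin n → ℤ → ℕ} (h : Res n B p) :
    ∃ p', Res n (fun τ κ => B τ κ ∨ (τ % (2 * n) = v.1 % (2 * n) ∧ κ = v.2)) p' := by
  classical
  obtain ⟨τv, κv⟩ := v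
  by_cases hno : ∀ a, lev τv (p a τv) = κv → p a τv = p a (τv - 1)
  · refine ⟨p, h.lt, h.inj, h.per, h.cont, ?_, ?_⟩
    · rintro a τ (hB | ⟨h1, h2⟩)
      · exact h.block a τ hB
      · obtain ⟨q, hq⟩ := eq_of_emod h1
        have e1 : p a τ = p a τv := h.per_of_eq a hq
        have e2 : p a (τ - 1) = p a (τv - 1) :=
          h.per_of_eq a (τ := τ - 1) (τ' := τv - 1) (q := q) (by rw [hq]; ring)
        rw [e1, e2]
        apply hno
        rw [lev_per (τ' := τv) hq, e1] at h2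
        exact h2
    · intro a
      obtain ⟨τ, hτ⟩ := h.contact a
      exact ⟨τ, hτ.imp_right Or.inl⟩
  · push Not at hno
    obtain ⟨a, ha, hane⟩ := hno
    obtain ⟨b, hb⟩ := h.surj (τv - 1) (h.lt a τv)
    have hab : a ≠ b := by
      rintro rfl
      exact hane hb.symm
    have ca := lev_eq_cases (h.cont a τv)
    have cb := h.cont b τv
    rw [hb] at cb
    have hbne : p b τv ≠ p a τv := fun e => hab (h.inj τv e).symm
    have ca' := h.cont a τv
    rcases ca with h1 | h1 | h1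
    · exact absurd h1.symm hane
    · -- `p a τv = p a (τv - 1) + 1`
      obtain ⟨p', hp'⟩ := h.switch hn hab (τ0 := τv) (s := p a (τv - 1)) (by
          unfold lev at ca' ⊢; split_ifs at ca' ⊢ <;> omega) rfl h1 (by omega) (by
          unfold lev at ca' cb; split_ifs at ca' cb <;> omega)
      refine ⟨p', ?_⟩
      have : κv = p a (τv - 1) + 1 := by
        rw [← ha, ← ca']
        unfold lev at ca' ⊢; split_ifs at ca' ⊢ <;> omega
      simp only [this]
      exact hp'
    · obtain ⟨p', hp'⟩ := h.switch hn hab.symm (τ0 := τv) (s := p a τv) (by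
          unfold lev at ca' ⊢; split_ifs at ca' ⊢ <;> omega) hb (by
          unfold lev at ca' cb; split_ifs at ca' cb <;> omega) (by omega) rfl
      refine ⟨p', ?_⟩
      have : κv = p a τv + 1 := by
        rw [← ha]
        unfold lev at ca' ⊢; split_ifs at ca' ⊢ <;> omega
      simp only [this]
      exact hp'

/-- **The brick wall lemma.** For every `2n`-periodic set `B` of blocked vertices there is a
resolution. -/
theorem exists_res {n : ℕ} (hn : 0 < n) (B : ℤ → ℕ → Prop) (hB : ∀ τ κ, B (τ + 2 * n) κ ↔ B τ κ) :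
    ∃ p, Res n B p := by
  classical
  have main : ∀ T : Finset (ℤ × ℕ), ∃ p, Res n
      (fun τ κ => ∃ v ∈ T, τ % (2 * n) = v.1 % (2 * n) ∧ κ = v.2) p := by
    intro T
    induction T using Finset.induction_on with
    | empty => exact ⟨freeP n, by simpa using free_res hn⟩
    | insert v T _ ih =>
      obtain ⟨p, hp⟩ := ih
      obtain ⟨p', hp'⟩ := exists_res_step hn v hp
      refine ⟨p', ?_⟩
      convert hp' using 4
      simp only [Finset.mem_insert, exists_eq_or_imp]
      exact or_comm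
  have hper : ∀ (τ q : ℤ) (κ : ℕ), B (τ + 2 * n * q) κ ↔ B τ κ := by
    intro τ q κ
    induction q using Int.induction_on with
    | zero => simp
    | succ i ih => rw [← ih, ← hB (τ + 2 * n * i)]; ring_nf
    | pred i ih => rw [← ih, ← hB (τ + 2 * n * (-i - 1))]; ring_nf
  obtain ⟨p, hp⟩ := main (((Finset.range (2 * n)).product (Finset.range (n + 1))).image
    (fun x => ((x.1 : ℤ), x.2)) |>.filter fun v => B v.1 v.2)
  have hN : (2 * n : ℤ) ≠ 0 := by omega
  have hN' : (0 : ℤ) < 2 * n := by omega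
  have fwd : ∀ τ κ, (∃ v ∈ (((Finset.range (2 * n)).product (Finset.range (n + 1))).image
      (fun x => ((x.1 : ℤ), x.2)) |>.filter fun v => B v.1 v.2),
      τ % (2 * n) = v.1 % (2 * n) ∧ κ = v.2) → B τ κ := by
    rintro τ κ ⟨v, hv, h1, rfl⟩
    obtain ⟨q, hq⟩ := eq_of_emod h1
    rw [hq, hper]
    exact (Finset.mem_filter.1 hv).2
  have bwd : ∀ τ κ, κ ≤ n → B τ κ → (∃ v ∈ (((Finset.range (2 * n)).product
      (Finset.range (n + 1))).image (fun x => ((x.1 : ℤ), x.2)) |>.filter fun v => B v.1 v.2),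
      τ % (2 * n) = v.1 % (2 * n) ∧ κ = v.2) := by
    intro τ κ hκ h1
    have l1 := Int.emod_lt_of_pos τ hN'
    have l2 := Int.emod_nonneg τ hN
    refine ⟨(τ % (2 * n), κ), ?_, by simp, rfl⟩
    rw [Finset.mem_filter]
    refine ⟨Finset.mem_image.2 ⟨((τ % (2 * n)).toNat, κ), ?_, ?_⟩, ?_⟩
    · rw [Finset.product_eq_sprod, Finset.mem_product]
      simp only [Finset.mem_range]
      omega
    · ext
      · simp; omega
      · rfl
    · have e : τ = τ % (2 * n) + 2 * n * (τ / (2 * n)) := (Int.emod_add_mul_ediv τ (2 * n)).symm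
      rw [e, hper] at h1
      exact h1
  have hlev : ∀ (τ : ℤ) (s : ℕ), s < n → lev τ s ≤ n := by
    intro τ s hs
    unfold lev; split_ifs <;> omega
  refine ⟨p, hp.lt, hp.inj, hp.per, hp.cont, ?_, ?_⟩
  · intro a τ h1
    exact hp.block a τ (bwd _ _ (hlev _ _ (hp.lt a τ)) h1)
  · intro a
    obtain ⟨τ, hτ⟩ := hp.contact a
    exact ⟨τ, hτ.imp_right (fwd _ _)⟩

end Pool.Agent.H70.SD
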