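import Pool.Agent.H70.SD.Stmt

/-!
# The double of a filling
-/

open Set

noncomputable section

namespace Pool.Agent.H70.SD

variable {M : Type} [MetricSpace M] {φ : C1 → M}

lemma doubleDist_same (x y : M) (b : Bool) : doubleDist φ (x, b) (y, b) = dist x y := by
  simp [doubleDist]

lemma doubleDist_diff {x y : M} {b c : Bool} (h : b ≠ c) : doubleDist φ (x, b) (y, c) =
    ⨅ t : C1, (dist x (φ t) + dist (φ (t + (Real.pi : ℝ))) y) := by
  simp [doubleDist, h]

lemma bdd (x y : M) : BddBelow (range fun t : C1 =>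
    (dist x (φ t) + dist (φ (t + (Real.pi : ℝ))) y)) :=
  ⟨0, by rintro _ ⟨t, rfl⟩; positivity⟩

lemma pi_add_pi (t : C1) : t + (Real.pi : ℝ) + (Real.pi : ℝ) = t := by
  rw [add_assoc, ← AddCircle.coe_add, ← two_mul, AddCircle.coe_period, add_zero]

lemma cross_symm (x y : M) : (⨅ t : C1, (dist x (φ t) + dist (φ (t + (Real.pi : ℝ))) y)) =
    ⨅ t : C1, (dist y (φ t) + dist (φ (t + (Real.pi : ℝ))) x) := by
  refine Equiv.iInf_congr (Equiv.addRight ((Real.pi : ℝ) : C1)) fun t => ?_
  simp only [Equiv.coe_addRight]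
  rw [pi_add_pi, dist_comm y, dist_comm _ x]
  ring

lemma doubleDist_self (p : M × Bool) : doubleDist φ p p = 0 := by
  simp [doubleDist]

lemma doubleDist_comm (p q : M × Bool) : doubleDist φ p q = doubleDist φ q p := by
  obtain ⟨x, b⟩ := p
  obtain ⟨y, c⟩ := q
  by_cases h : b = c
  · subst h
    rw [doubleDist_same, doubleDist_same, dist_comm]
  · rw [doubleDist_diff h, doubleDist_diff (Ne.symm h), cross_symm]

lemma doubleDist_nonneg (p q : M × Bool) : 0 ≤ doubleDist φ p q := by
  unfold doubleDist
  split_ifs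
  · exact dist_nonneg
  · exact Real.iInf_nonneg fun t => by positivity

lemma doubleDist_flip (p q : M × Bool) : doubleDist φ (flip p) (flip q) = doubleDist φ p q := by
  simp [doubleDist, flip]

omit [MetricSpace M] in
lemma flip_flip (p : M × Bool) : flip (flip p) = p := by simp [flip]

lemma cross_triangle (x y z : M) : (⨅ t : C1, (dist x (φ t) + dist (φ (t + (Real.pi : ℝ))) z)) ≤
    dist x y + ⨅ t : C1, (dist y (φ t) + dist (φ (t + (Real.pi : ℝ))) z) := by
  rw [← sub_le_iff_le_add']
  refine le_ciInf fun t => ?_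
  have h1 := ciInf_le (bdd (φ := φ) x z) t
  have h2 := dist_triangle x y (φ t)
  linarith

variable (hφ : ∀ s t : C1, dist (φ s) (φ t) = dist s t)
include hφ

lemma doubleDist_triangle (p q r : M × Bool) :
    doubleDist φ p r ≤ doubleDist φ p q + doubleDist φ q r := by
  obtain ⟨x, b⟩ := p
  obtain ⟨y, c⟩ := q
  obtain ⟨z, d⟩ := r
  by_cases h1 : b = c
  · subst h1
    rw [doubleDist_same]
    by_cases h2 : b = d
    · subst h2
      rw [doubleDist_same, doubleDist_same]
      exact dist_triangle _ _ _
    · rw [doubleDist_diff h2, doubleDist_diff h2]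
      exact cross_triangle x y z
  · rw [doubleDist_diff h1]
    by_cases h2 : c = d
    · subst h2
      rw [doubleDist_same, doubleDist_diff h1, cross_symm x z, cross_symm x y, add_comm,
        dist_comm y z]
      exact cross_triangle z y x
    · have h3 : b = d := by
        revert h1 h2; cases b <;> cases c <;> cases d <;> simp
      subst h3
      rw [doubleDist_same, doubleDist_diff h2]
      rw [← sub_le_iff_le_add']
      refine le_ciInf fun s => ?_
      rw [sub_le_comm]
      refine le_ciInf fun t => ?_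
      have h4 := dist_triangle x (φ t) z
      have h5 := dist_triangle (φ t) (φ (s + (Real.pi : ℝ))) z
      have h6 : dist (φ t) (φ (s + (Real.pi : ℝ))) = dist (φ (t + (Real.pi : ℝ))) (φ s) := by
        rw [hφ, hφ, ← dist_add_right t (s + (Real.pi : ℝ)) (Real.pi : ℝ), pi_add_pi]
      have h7 := dist_triangle (φ (t + (Real.pi : ℝ))) y (φ s)
      linarith

lemma pi_le_doubleDist_flip (p : M × Bool) : Real.pi ≤ doubleDist φ p (flip p) := by
  obtain ⟨x, b⟩ := p
  unfold flip
  rw [doubleDist_diff (by simp)]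
  refine le_ciInf fun t => ?_
  have h1 := dist_triangle (φ t) x (φ (t + (Real.pi : ℝ)))
  rw [hφ, dist_comm (φ t) x, dist_comm x (φ (t + (Real.pi : ℝ)))] at h1
  have h2 : dist t (t + ((Real.pi : ℝ) : C1)) = Real.pi := by
    have h3 : ((Real.pi : ℝ) : C1) = ((2 * Real.pi / 2 : ℝ) : C1) := by congr 1; ring
    rw [dist_self_add_right, h3, AddCircle.norm_half_period_eq, abs_of_pos Real.two_pi_pos]
    ring
  linarith

end Pool.Agent.H70.SD
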