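import Mathlib

/-!
# Slit disc project: basic definitions
-/

open MeasureTheory Set
open scoped ENNReal

noncomputable section

namespace Pool.Agent.H70.SD

/-- The radius of the point whose latitude has tangent `v` (stereographic projection of the
hemisphere to the unit disc). -/
def rad (v : ℝ) : ℝ := Real.sqrt (1 + v ^ 2) - v

/-- The point of the unit disc with latitude `arctan v` and longitude `w`. -/
def pt (v w : ℝ) : ℂ := (rad v : ℂ) * Complex.exp (w * Complex.I)

/-- The speed factor of the great circle `v = A sin x` in the disc. -/
def spd (A v : ℝ) : ℝ := rad v * Real.sqrt (1 + A ^ 2) / Real.sqrt (1 + v ^ 2)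

end Pool.Agent.H70.SD
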