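import Pool.Agent.H70.SD.Geo

/-!
# The slit disc parametrisation and the inequality for edges
-/

open MeasureTheory Set Filter Topology
open scoped ENNReal

noncomputable section

namespace Pool.Agent.H70.SD

/-- The data used in the proof: `S` is contained in finitely many circles; `inn`, `out` are the
two boundary extensions; `lam` is the conformal factor. -/
structure SlitData {X : Type*} [PseudoMetricSpace X] (c : ℝ) (S : Set ℂ) (R : Finset ℝ)
    (inn out : ℂ → X) (lam : ℂ → ℝ≥0∞) : Prop where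
  rad_mem : ∀ r ∈ R, 0 < r ∧ r < 1
  norm_mem : ∀ z ∈ S, ‖z‖ ∈ R
  eq_off : ∀ z, z ∉ S → inn z = out z
  cont_inn : ∀ z, ‖z‖ ≤ 1 → ContinuousWithinAt inn {w | ‖w‖ ≤ ‖z‖} z
  cont_out : ∀ z, ‖z‖ ≤ 1 → ContinuousWithinAt out {w | ‖z‖ ≤ ‖w‖ ∧ ‖w‖ ≤ 1} z
  far_inn : ∀ z ∈ S, c ≤ dist (inn z) (inn (-z))
  far_out : ∀ z ∈ S, c ≤ dist (out z) (out (-z))
  far_bd : ∀ z, ‖z‖ = 1 → c ≤ dist (inn z) (inn (-z))
  meas : Measurable lam
  upper : ∀ (γ γ' : ℝ → ℂ) (a b : ℝ), a ≤ b → (∀ t ∈ Icc a b, HasDerivAt γ (γ' t) t) →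
    ContinuousOn γ' (Icc a b) → (∀ t ∈ Icc a b, ‖γ t‖ < 1 ∧ γ t ∉ S) →
    ENNReal.ofReal (dist (inn (γ a)) (inn (γ b))) ≤ ∫⁻ t in Icc a b, lam (γ t) * ‖γ' t‖ₑ

variable {X : Type*} [PseudoMetricSpace X] {c : ℝ} {S : Set ℂ} {R : Finset ℝ}
    {inn out : ℂ → X} {lam : ℂ → ℝ≥0∞}

/-- off the circles `inn` is continuous. -/
lemma SlitData.cont_off (h : SlitData c S R inn out lam) {z : ℂ} (hz : ‖z‖ ≤ 1)
    (hzR : ‖z‖ ∉ R) : ContinuousWithinAt inn {w | ‖w‖ ≤ 1} z := by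
  have h1 := h.cont_inn z hz
  have h2 := h.cont_out z hz
  have hzS : z ∉ S := fun hS => hzR (h.norm_mem z hS)
  have hnear : ∀ᶠ w in 𝓝 z, inn w = out w := by
    have : ∀ᶠ w in 𝓝 z, ‖w‖ ∉ (R : Set ℝ) := by
      have hcont : ContinuousAt (fun w : ℂ => ‖w‖) z := continuous_norm.continuousAt
      exact hcont.preimage_mem_nhds ((R.finite_toSet.isClosed.isOpen_compl).mem_nhds
        (by simpa using hzR))
    filter_upwards [this] with w hw
    exact h.eq_off w fun hS => hw (by simpa using h.norm_mem w hS)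
  have h3 : ContinuousWithinAt inn {w | ‖z‖ ≤ ‖w‖ ∧ ‖w‖ ≤ 1} z :=
    h2.congr_of_eventuallyEq (hnear.filter_mono nhdsWithin_le_nhds) (h.eq_off z hzS)
  refine (h1.union h3).mono ?_
  intro w hw
  rcases le_total ‖w‖ ‖z‖ with h | h
  · exact Or.inl h
  · exact Or.inr ⟨h, hw⟩

/-- The inequality for a path whose interior is in the open slit disc. -/
lemma SlitData.path_ineq (h : SlitData c S R inn out lam) {γ γ' : ℝ → ℂ} {a b : ℝ} (hab : a < b)
    (hd : ∀ t, HasDerivAt γ (γ' t) t) (hc : Continuous γ')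
    (hin : ∀ t ∈ Ioo a b, ‖γ t‖ < 1 ∧ γ t ∉ S)
    (ha : ‖γ a‖ ≤ 1) (haR : ‖γ a‖ ∉ R) (hb : ‖γ b‖ ≤ 1) (hbR : ‖γ b‖ ∉ R) :
    ENNReal.ofReal (dist (inn (γ a)) (inn (γ b))) ≤ ∫⁻ t in Icc a b, lam (γ t) * ‖γ' t‖ₑ := by
  have hγc : Continuous γ := continuous_iff_continuousAt.2 fun t => (hd t).continuousAt
  have hle : ∀ t ∈ Icc a b, ‖γ t‖ ≤ 1 := by
    intro t ht
    rcases eq_or_lt_of_le ht.1 with h1 | h1
    · rw [← h1]; exact ha
    rcases eq_or_lt_of_le ht.2 with h2 | h2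
    · rw [h2]; exact hb
    exact (hin t ⟨h1, h2⟩).1.le
  have key : ∀ ε ∈ Ioo 0 ((b - a) / 2), ENNReal.ofReal (dist (inn (γ (a + ε))) (inn (γ (b - ε)))) ≤
      ∫⁻ t in Icc a b, lam (γ t) * ‖γ' t‖ₑ := by
    intro ε hε
    have h1 := h.upper γ γ' (a + ε) (b - ε) (by linarith [hε.2]) (fun t _ => hd t)
      hc.continuousOn (fun t ht => hin t ⟨by linarith [ht.1, hε.1], by linarith [ht.2, hε.1]⟩)
    refine h1.trans (lintegral_mono_set ?_)
    exact Icc_subset_Icc (by linarith [hε.1]) (by linarith [hε.1])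
  have ta : Tendsto (fun ε : ℝ => inn (γ (a + ε))) (𝓝[>] 0) (𝓝 (inn (γ a))) := by
    have h1 := h.cont_off ha haR
    have h2 : Tendsto (fun ε : ℝ => γ (a + ε)) (𝓝[>] 0) (𝓝[{w | ‖w‖ ≤ 1}] (γ a)) := by
      rw [tendsto_nhdsWithin_iff]
      constructor
      · have : Continuous fun ε : ℝ => γ (a + ε) := by fun_prop
        have h3 := this.tendsto 0
        rw [add_zero] at h3
        exact h3.mono_left nhdsWithin_le_nhds
      · filter_upwards [Ioo_mem_nhdsGT (show (0 : ℝ) < b - a by linarith)] with ε hε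
        exact hle _ ⟨by linarith [hε.1], by linarith [hε.2]⟩
    exact h1.tendsto.comp h2
  have tb : Tendsto (fun ε : ℝ => inn (γ (b - ε))) (𝓝[>] 0) (𝓝 (inn (γ b))) := by
    have h1 := h.cont_off hb hbR
    have h2 : Tendsto (fun ε : ℝ => γ (b - ε)) (𝓝[>] 0) (𝓝[{w | ‖w‖ ≤ 1}] (γ b)) := by
      rw [tendsto_nhdsWithin_iff]
      constructor
      · have : Continuous fun ε : ℝ => γ (b - ε) := by fun_prop
        have h3 := this.tendsto 0
        rw [sub_zero] at h3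
        exact h3.mono_left nhdsWithin_le_nhds
      · filter_upwards [Ioo_mem_nhdsGT (show (0 : ℝ) < b - a by linarith)] with ε hε
        exact hle _ ⟨by linarith [hε.2], by linarith [hε.1]⟩
    exact h1.tendsto.comp h2
  have tt := ENNReal.tendsto_ofReal (ta.dist tb)
  refine le_of_tendsto tt ?_
  filter_upwards [Ioo_mem_nhdsGT (show (0 : ℝ) < (b - a) / 2 by linarith)] with ε hε
  exact key ε hε

/-- Uniform continuity from inside at a circle. -/
lemma SlitData.unif_inn (h : SlitData c S R inn out lam) {r : ℝ} (hr : r ≤ 1) {ε : ℝ}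
    (hε : 0 < ε) : ∃ δ > 0, ∀ z w : ℂ, ‖z‖ = r → ‖w‖ ≤ r → ‖z - w‖ < δ →
      dist (inn z) (inn w) ≤ ε := by
  have hloc : ∀ z : ℂ, ‖z‖ = r → ∃ δ > 0, ∀ w, ‖w‖ ≤ r → dist w z < δ →
      dist (inn w) (inn z) < ε / 2 := by
    intro z hz
    have h1 := h.cont_inn z (hz.trans_le hr)
    rw [Metric.continuousWithinAt_iff] at h1
    obtain ⟨δ, hδ, h2⟩ := h1 (ε / 2) (by positivity)
    exact ⟨δ, hδ, fun w hw hd => h2 (by simpa [hz] using hw) hd⟩
  choose! δ hδ hδ' using hloc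
  obtain ⟨d, hd, hd'⟩ := lebesgue_number_lemma_of_metric (ι := {z : ℂ // ‖z‖ = r})
    (s := Metric.sphere (0 : ℂ) r) (c := fun z => Metric.ball z.1 (δ z.1))
    (isCompact_sphere 0 r) (fun _ => Metric.isOpen_ball) (by
      intro z hz
      have hz' : ‖z‖ = r := by simpa using hz
      exact mem_iUnion.2 ⟨⟨z, hz'⟩, Metric.mem_ball_self (hδ z hz')⟩)
  refine ⟨d, hd, fun z w hz hw hzw => ?_⟩
  obtain ⟨⟨y, hy⟩, hsub⟩ := hd' z (by simpa using hz)
  have h1 := hδ' y hy z hz.le (Metric.mem_ball.1 (hsub (Metric.mem_ball_self hd)))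
  have h2 := hδ' y hy w hw (Metric.mem_ball.1 (hsub (by
    rw [Metric.mem_ball, dist_comm, dist_eq_norm]; exact hzw)))
  have := dist_triangle_right (inn z) (inn w) (inn y)
  linarith

/-- Uniform continuity from outside at a circle. -/
lemma SlitData.unif_out (h : SlitData c S R inn out lam) {r : ℝ} (hr : r ≤ 1) {ε : ℝ}
    (hε : 0 < ε) : ∃ δ > 0, ∀ z w : ℂ, ‖z‖ = r → r ≤ ‖w‖ → ‖w‖ ≤ 1 → ‖z - w‖ < δ →
      dist (out z) (out w) ≤ ε := by
  have hloc : ∀ z : ℂ, ‖z‖ = r → ∃ δ > 0, ∀ w, r ≤ ‖w‖ → ‖w‖ ≤ 1 → dist w z < δ →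
      dist (out w) (out z) < ε / 2 := by
    intro z hz
    have h1 := h.cont_out z (hz.trans_le hr)
    rw [Metric.continuousWithinAt_iff] at h1
    obtain ⟨δ, hδ, h2⟩ := h1 (ε / 2) (by positivity)
    exact ⟨δ, hδ, fun w hw hw1 hd => h2 (by simpa [hz] using ⟨hw, hw1⟩) hd⟩
  choose! δ hδ hδ' using hloc
  obtain ⟨d, hd, hd'⟩ := lebesgue_number_lemma_of_metric (ι := {z : ℂ // ‖z‖ = r})
    (s := Metric.sphere (0 : ℂ) r) (c := fun z => Metric.ball z.1 (δ z.1))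
    (isCompact_sphere 0 r) (fun _ => Metric.isOpen_ball) (by
      intro z hz
      have hz' : ‖z‖ = r := by simpa using hz
      exact mem_iUnion.2 ⟨⟨z, hz'⟩, Metric.mem_ball_self (hδ z hz')⟩)
  refine ⟨d, hd, fun z w hz hw hw1 hzw => ?_⟩
  obtain ⟨⟨y, hy⟩, hsub⟩ := hd' z (by simpa using hz)
  have h1 := hδ' y hy z hz.ge (hz.trans_le hr) (Metric.mem_ball.1 (hsub (Metric.mem_ball_self hd)))
  have h2 := hδ' y hy w hw hw1 (Metric.mem_ball.1 (hsub (by
    rw [Metric.mem_ball, dist_comm, dist_eq_norm]; exact hzw)))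
  have := dist_triangle_right (out z) (out w) (out y)
  linarith

end Pool.Agent.H70.SD
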