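import Mathlib

/-!
# One-sided extensions to the slits
-/

open MeasureTheory Set Filter Topology
open scoped ENNReal

noncomputable section

namespace Pool.Agent.H70.SD

lemma near_norm {R : Set ℝ} (hR : R.Finite) (z : ℂ) : ∀ᶠ w in 𝓝 z, ‖w‖ ∈ R → ‖w‖ = ‖z‖ := by
  have h1 : (R \ {‖z‖}).Finite := hR.subset sdiff_subset
  have h2 : ∀ᶠ w : ℂ in 𝓝 z, ‖w‖ ∈ (R \ {‖z‖})ᶜ := by
    have hcont : ContinuousAt (fun w : ℂ => ‖w‖) z := continuous_norm.continuousAt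
    exact hcont.preimage_mem_nhds (h1.isClosed.isOpen_compl.mem_nhds (by simp))
  filter_upwards [h2] with w hw hwR
  by_contra hne
  exact hw ⟨hwR, hne⟩

variable {X : Type*} [PseudoMetricSpace X] {S : Set ℂ} {F inn out : ℂ → X}

lemma ext_inn (hfin : ((fun z : ℂ => ‖z‖) '' S).Finite)
    (hcont : ∀ z, ‖z‖ ≤ 1 → z ∉ S → ContinuousWithinAt F ({w | ‖w‖ ≤ 1} \ S) z)
    (hinn : ∀ z ∈ S, Tendsto F (𝓝[{w | ‖w‖ < ‖z‖}] z) (𝓝 (inn z)))
    (heq : ∀ z ∉ S, inn z = F z) (z : ℂ) (hz : ‖z‖ ≤ 1) :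
    ContinuousWithinAt inn {w | ‖w‖ ≤ ‖z‖} z := by
  have step1 : ∀ z : ℂ, ‖z‖ ≤ 1 → Tendsto F (𝓝[{w | ‖w‖ < ‖z‖}] z) (𝓝 (inn z)) := by
    intro z hz
    by_cases hzS : z ∈ S
    · exact hinn z hzS
    · rw [heq z hzS]
      have h1 : Tendsto F (𝓝[({w | ‖w‖ ≤ 1} \ S)] z) (𝓝 (F z)) := hcont z hz hzS
      refine h1.mono_left ?_
      refine nhdsWithin_le_iff.2 ?_
      rw [mem_nhdsWithin_iff_eventually]
      filter_upwards [near_norm hfin z] with w hw hlt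
      have hlt' : ‖w‖ < ‖z‖ := hlt
      exact ⟨(hlt'.trans_le hz).le, fun hwS => hlt'.ne (hw ⟨w, hwS, rfl⟩)⟩
  rcases eq_or_ne z 0 with rfl | hz0
  · have : {w : ℂ | ‖w‖ ≤ ‖(0 : ℂ)‖} = {0} := by ext w; simp
    rw [this]
    exact continuousWithinAt_singleton
  have hz0' : 0 < ‖z‖ := norm_pos_iff.2 hz0
  rw [Metric.continuousWithinAt_iff]
  intro ε hε
  have h1 := (Metric.tendsto_nhds.1 (step1 z hz)) (ε / 2) (by positivity)
  rw [eventually_nhdsWithin_iff, Metric.eventually_nhds_iff] at h1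
  obtain ⟨δ, hδ, h2⟩ := h1
  refine ⟨min δ ‖z‖, lt_min hδ hz0', fun w hw hwz => ?_⟩
  have hw' : ‖w‖ ≤ ‖z‖ := hw
  have hw0 : w ≠ 0 := by
    rintro rfl
    have := hwz.trans_le (min_le_right _ _)
    rw [dist_zero_left] at this
    exact lt_irrefl _ this
  have hne : (𝓝[{v : ℂ | ‖v‖ < ‖w‖}] w).NeBot := by
    rw [← mem_closure_iff_nhdsWithin_neBot]
    have : {v : ℂ | ‖v‖ < ‖w‖} = Metric.ball 0 ‖w‖ := by ext v; simp
    rw [this, closure_ball _ (norm_ne_zero_iff.2 hw0)]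
    simp
  have h3 := (Metric.tendsto_nhds.1 (step1 w (hw'.trans hz))) (ε / 2) (by positivity)
  have h4 : ∀ᶠ v in 𝓝[{v : ℂ | ‖v‖ < ‖w‖}] w, dist v z < δ := by
    refine nhdsWithin_le_nhds ?_
    have : ContinuousAt (fun v : ℂ => dist v z) w := (continuous_id.dist continuous_const).continuousAt
    exact this.eventually_lt_const (hwz.trans_le (min_le_left _ _))
  obtain ⟨v, hv1, hv2, hv3⟩ := (h3.and (h4.and self_mem_nhdsWithin)).exists
  have h5 := h2 hv2 (show ‖v‖ < ‖z‖ from lt_of_lt_of_le hv3 hw')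
  have := dist_triangle_left (inn w) (inn z) (F v)
  linarith

lemma ext_out (hfin : ((fun z : ℂ => ‖z‖) '' S).Finite) (hpos : ∀ z ∈ S, ‖z‖ < 1)
    (hcont : ∀ z, ‖z‖ ≤ 1 → z ∉ S → ContinuousWithinAt F ({w | ‖w‖ ≤ 1} \ S) z)
    (hout : ∀ z ∈ S, Tendsto F (𝓝[{w | ‖z‖ < ‖w‖}] z) (𝓝 (out z)))
    (heq : ∀ z ∉ S, out z = F z) (z : ℂ) (hz : ‖z‖ ≤ 1) :
    ContinuousWithinAt out {w | ‖z‖ ≤ ‖w‖ ∧ ‖w‖ ≤ 1} z := by
  rcases hz.eq_or_lt with hz1 | hz1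
  · have hzS : z ∉ S := fun h => (hpos z h).ne hz1
    have h1 : ContinuousWithinAt F {w | ‖z‖ ≤ ‖w‖ ∧ ‖w‖ ≤ 1} z :=
      (hcont z hz hzS).mono (by
        rintro w ⟨h1, h2⟩
        exact ⟨h2, fun hS => (hpos w hS).not_ge (hz1 ▸ h1)⟩)
    refine h1.congr (fun w hw => heq w fun hS => (hpos w hS).not_ge (hz1 ▸ hw.1)) (heq z hzS)
  have step1 : ∀ z : ℂ, ‖z‖ < 1 → Tendsto F (𝓝[{w | ‖z‖ < ‖w‖}] z) (𝓝 (out z)) := by
    intro z hz
    by_cases hzS : z ∈ S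
    · exact hout z hzS
    · rw [heq z hzS]
      have h1 : Tendsto F (𝓝[({w | ‖w‖ ≤ 1} \ S)] z) (𝓝 (F z)) := hcont z hz.le hzS
      refine h1.mono_left ?_
      refine nhdsWithin_le_iff.2 ?_
      rw [mem_nhdsWithin_iff_eventually]
      have h2 : ∀ᶠ w : ℂ in 𝓝 z, ‖w‖ < 1 := continuous_norm.continuousAt.eventually_lt_const hz
      filter_upwards [near_norm hfin z, h2] with w hw hw1 hlt
      have hlt' : ‖z‖ < ‖w‖ := hlt
      exact ⟨hw1.le, fun hwS => hlt'.ne' (hw ⟨w, hwS, rfl⟩)⟩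
  rw [Metric.continuousWithinAt_iff]
  intro ε hε
  have h1 := (Metric.tendsto_nhds.1 (step1 z hz1)) (ε / 2) (by positivity)
  rw [eventually_nhdsWithin_iff, Metric.eventually_nhds_iff] at h1
  obtain ⟨δ, hδ, h2⟩ := h1
  refine ⟨min δ (1 - ‖z‖), lt_min hδ (by linarith), fun w hw hwz => ?_⟩
  rcases eq_or_ne w 0 with rfl | hw0
  · have : z = 0 := by simpa using hw.1
    rw [this, dist_self]
    exact hε
  have hw' : ‖z‖ ≤ ‖w‖ := hw.1
  have hw1 : ‖w‖ < 1 := by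
    have h3 := hwz.trans_le (min_le_right _ _)
    rw [dist_eq_norm] at h3
    have h4 := norm_sub_norm_le w z
    linarith
  have hne : (𝓝[{v : ℂ | ‖w‖ < ‖v‖}] w).NeBot := by
    rw [← mem_closure_iff_nhdsWithin_neBot]
    have : {v : ℂ | ‖w‖ < ‖v‖} = (Metric.closedBall 0 ‖w‖)ᶜ := by ext v; simp
    rw [this, closure_compl, interior_closedBall _ (norm_ne_zero_iff.2 hw0)]
    simp
  have h3 := (Metric.tendsto_nhds.1 (step1 w hw1)) (ε / 2) (by positivity)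
  have h4 : ∀ᶠ v in 𝓝[{v : ℂ | ‖w‖ < ‖v‖}] w, dist v z < δ := by
    refine nhdsWithin_le_nhds ?_
    have : ContinuousAt (fun v : ℂ => dist v z) w := (continuous_id.dist continuous_const).continuousAt
    exact this.eventually_lt_const (hwz.trans_le (min_le_left _ _))
  obtain ⟨v, hv1, hv2, hv3⟩ := (h3.and (h4.and self_mem_nhdsWithin)).exists
  have h5 := h2 hv2 (show ‖z‖ < ‖v‖ from lt_of_le_of_lt hw' hv3)
  have := dist_triangle_left (out w) (out z) (F v)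
  linarith

end Pool.Agent.H70.SD
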