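import Pool.Agent.H70.SD.Defs

/-!
# Great circles in the unit disc
-/

open MeasureTheory Set Filter Topology
open scoped ENNReal

noncomputable section

namespace Pool.Agent.H70.SD

lemma sqrt_pos' (v : ℝ) : 0 < Real.sqrt (1 + v ^ 2) := Real.sqrt_pos.2 (by positivity)

lemma sq_sqrt' (v : ℝ) : Real.sqrt (1 + v ^ 2) ^ 2 = 1 + v ^ 2 := Real.sq_sqrt (by positivity)

lemma rad_pos (v : ℝ) : 0 < rad v := by
  unfold rad
  have h1 := sqrt_pos' v
  have h2 := sq_sqrt' v
  by_contra hc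
  push Not at hc
  nlinarith

lemma rad_zero : rad 0 = 1 := by simp [rad]

lemma rad_mul (v : ℝ) : rad v * (Real.sqrt (1 + v ^ 2) + v) = 1 := by
  unfold rad
  have h2 := sq_sqrt' v
  nlinarith

lemma hasDerivAt_rad (v : ℝ) : HasDerivAt rad (-(rad v) / Real.sqrt (1 + v ^ 2)) v := by
  have h := ((hasDerivAt_pow 2 v).const_add 1).sqrt (by positivity)
  have h2 : HasDerivAt (fun v => Real.sqrt (1 + v ^ 2) - v) _ v := h.sub (hasDerivAt_id' v)
  have h3 : HasDerivAt rad _ v := h2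
  refine h3.congr_deriv ?_
  have := sqrt_pos' v
  unfold rad
  push_cast
  field_simp
  ring

lemma rad_strictAnti : StrictAnti rad := by
  apply strictAnti_of_deriv_neg
  intro v
  rw [(hasDerivAt_rad v).deriv]
  have := rad_pos v
  have := sqrt_pos' v
  rw [neg_div]
  exact neg_neg_of_pos (by positivity)

lemma rad_lt_one {v : ℝ} (hv : 0 < v) : rad v < 1 := by
  rw [← rad_zero]; exact rad_strictAnti hv

lemma rad_le_one {v : ℝ} (hv : 0 ≤ v) : rad v ≤ 1 := by
  rw [← rad_zero]; exact rad_strictAnti.antitone hv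

/-- `rad` is 1-Lipschitz on `[0, ∞)`. -/
lemma rad_sub_le {v v' : ℝ} (hv : 0 ≤ v) (hv' : 0 ≤ v') : |rad v - rad v'| ≤ |v - v'| := by
  have := (convex_Ici (0 : ℝ)).norm_image_sub_le_of_norm_hasDerivWithin_le (f := rad)
    (f' := fun v => -(rad v) / Real.sqrt (1 + v ^ 2)) (C := 1)
    (fun x _ => (hasDerivAt_rad x).hasDerivWithinAt) (fun x hx => by
      have h1 := rad_pos x
      have h2 := sqrt_pos' x
      have h3 : rad x ≤ 1 := rad_le_one hx
      have h4 : 1 ≤ Real.sqrt (1 + x ^ 2) := by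
        rw [Real.one_le_sqrt]; nlinarith [sq_nonneg x]
      rw [norm_div, norm_neg, Real.norm_of_nonneg h1.le, Real.norm_of_nonneg h2.le]
      rw [div_le_one h2]
      linarith) (show v' ∈ Ici (0 : ℝ) from hv') (show v ∈ Ici (0 : ℝ) from hv)
  simpa [Real.norm_eq_abs] using this

/-- The value of `v` on the circle of radius `r`. -/
def vv (r : ℝ) : ℝ := (1 - r ^ 2) / (2 * r)

lemma rad_vv {r : ℝ} (hr : 0 < r) : rad (vv r) = r := by
  unfold rad vv
  have : 1 + ((1 - r ^ 2) / (2 * r)) ^ 2 = ((1 + r ^ 2) / (2 * r)) ^ 2 := by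
    field_simp
    ring
  rw [this, Real.sqrt_sq (by positivity)]
  field_simp
  ring

lemma vv_pos {r : ℝ} (hr : 0 < r) (hr1 : r < 1) : 0 < vv r := by
  unfold vv
  apply div_pos
  · nlinarith
  · linarith

lemma eq_vv {r v : ℝ} (hr : 0 < r) (h : rad v = r) : v = vv r :=
  rad_strictAnti.injective (by rw [h, rad_vv hr])

lemma norm_pt {v : ℝ} (w : ℝ) : ‖pt v w‖ = rad v := by
  rw [pt, norm_mul, Complex.norm_exp_ofReal_mul_I, mul_one, Complex.norm_real,
    Real.norm_of_nonneg (rad_pos v).le]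

lemma pt_add_pi (v w : ℝ) : pt v (w + Real.pi) = -pt v w := by
  unfold pt
  push_cast
  rw [add_mul, Complex.exp_add, Complex.exp_pi_mul_I]
  ring

lemma pt_add_two_pi (v w : ℝ) : pt v (w + 2 * Real.pi) = pt v w := by
  rw [show w + 2 * Real.pi = w + Real.pi + Real.pi by ring, pt_add_pi, pt_add_pi, neg_neg]

lemma norm_exp_sub_le (w w' : ℝ) :
    ‖Complex.exp (w * Complex.I) - Complex.exp (w' * Complex.I)‖ ≤ |w - w'| := by
  have h := Real.norm_exp_I_mul_ofReal_sub_one_le (x := w - w')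
  have e : Complex.exp (w * Complex.I) - Complex.exp (w' * Complex.I) =
      Complex.exp (w' * Complex.I) * (Complex.exp (Complex.I * ((w - w' : ℝ) : ℂ)) - 1) := by
    rw [mul_sub, ← Complex.exp_add, mul_one]
    congr 2
    push_cast; ring
  rw [e, norm_mul, Complex.norm_exp_ofReal_mul_I, one_mul]
  exact h

lemma norm_pt_sub_le {v v' : ℝ} (hv : 0 ≤ v) (hv' : 0 ≤ v') (w w' : ℝ) :
    ‖pt v w - pt v' w'‖ ≤ |v - v'| + |w - w'| := by
  have e : pt v w - pt v' w' = ((rad v - rad v' : ℝ) : ℂ) * Complex.exp (w * Complex.I) +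
      (rad v' : ℂ) * (Complex.exp (w * Complex.I) - Complex.exp (w' * Complex.I)) := by
    unfold pt; push_cast; ring
  rw [e]
  refine (norm_add_le _ _).trans (add_le_add ?_ ?_)
  · rw [norm_mul, Complex.norm_exp_ofReal_mul_I, mul_one, Complex.norm_real, Real.norm_eq_abs]
    exact rad_sub_le hv hv'
  · rw [norm_mul, Complex.norm_real, Real.norm_of_nonneg (rad_pos v').le]
    calc _ ≤ 1 * |w - w'| := mul_le_mul (rad_le_one hv') (norm_exp_sub_le w w')
            (norm_nonneg _) zero_le_one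
      _ = _ := one_mul _

/-- The great circle path. `x t = x0 + σ t`, `σ = ± 1`. -/
def gc (A x0 σ w0 : ℝ) (t : ℝ) : ℂ := pt (A * Real.sin (x0 + σ * t)) (w0 + t)

/-- Its derivative. -/
def gc' (A x0 σ w0 : ℝ) (t : ℝ) : ℂ :=
  ((-(rad (A * Real.sin (x0 + σ * t))) / Real.sqrt (1 + (A * Real.sin (x0 + σ * t)) ^ 2) *
    (A * (Real.cos (x0 + σ * t) * σ)) : ℝ) : ℂ) * Complex.exp (((w0 + t : ℝ) : ℂ) * Complex.I) +
  (rad (A * Real.sin (x0 + σ * t)) : ℂ) *
    (Complex.exp (((w0 + t : ℝ) : ℂ) * Complex.I) * Complex.I)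

lemma hasDerivAt_gc (A x0 σ w0 t : ℝ) : HasDerivAt (gc A x0 σ w0) (gc' A x0 σ w0 t) t := by
  unfold gc pt gc'
  have h1 : HasDerivAt (fun t : ℝ => A * Real.sin (x0 + σ * t))
      (A * (Real.cos (x0 + σ * t) * σ)) t := by
    have := (((hasDerivAt_id t).const_mul σ).const_add x0).sin.const_mul A
    simpa using this
  have h2 := ((hasDerivAt_rad (A * Real.sin (x0 + σ * t))).comp t h1).ofReal_comp
  have h3 : HasDerivAt (fun t : ℝ => Complex.exp (((w0 + t : ℝ) : ℂ) * Complex.I))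
      (Complex.exp (((w0 + t : ℝ) : ℂ) * Complex.I) * Complex.I) t := by
    have h4 : HasDerivAt (fun t : ℝ => ((w0 + t : ℝ) : ℂ) * Complex.I) Complex.I t := by
      have := (((hasDerivAt_id t).const_add w0).ofReal_comp).mul_const Complex.I
      simpa using this
    exact h4.cexp
  exact h2.mul h3

lemma norm_gc' (A x0 σ w0 t : ℝ) (hσ : σ ^ 2 = 1) :
    ‖gc' A x0 σ w0 t‖ = spd A (A * Real.sin (x0 + σ * t)) := by
  set v := A * Real.sin (x0 + σ * t) with hv
  set c := A * (Real.cos (x0 + σ * t) * σ) with hc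
  have e : gc' A x0 σ w0 t = (((-(rad v) / Real.sqrt (1 + v ^ 2) * c : ℝ) : ℂ) +
      (rad v : ℂ) * Complex.I) * Complex.exp (((w0 + t : ℝ) : ℂ) * Complex.I) := by
    unfold gc'; rw [← hv, ← hc]; ring
  have hcv : c ^ 2 + v ^ 2 = A ^ 2 := by
    rw [hc, hv]
    have := Real.sin_sq_add_cos_sq (x0 + σ * t)
    calc _ = A ^ 2 * (Real.cos (x0 + σ * t) ^ 2 * σ ^ 2 + Real.sin (x0 + σ * t) ^ 2) := by ring
      _ = A ^ 2 := by rw [hσ, mul_one, add_comm, this, mul_one]
  have hr := rad_pos v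
  have hs := sqrt_pos' v
  have hsA := sqrt_pos' A
  have h1 := sq_sqrt' v
  have h2 := sq_sqrt' A
  rw [e, norm_mul, Complex.norm_exp_ofReal_mul_I, mul_one, Complex.norm_add_mul_I]
  have hspd : 0 ≤ spd A v := by unfold spd; positivity
  rw [← Real.sqrt_sq hspd]
  congr 1
  unfold spd
  have h3 : (-rad v / Real.sqrt (1 + v ^ 2) * c) ^ 2 + rad v ^ 2 =
      rad v ^ 2 * (c ^ 2 + Real.sqrt (1 + v ^ 2) ^ 2) / Real.sqrt (1 + v ^ 2) ^ 2 := by
    field_simp
  have h4 : (rad v * Real.sqrt (1 + A ^ 2) / Real.sqrt (1 + v ^ 2)) ^ 2 =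
      rad v ^ 2 * (1 + A ^ 2) / (1 + v ^ 2) := by
    rw [div_pow, mul_pow, h2, h1]
  rw [h3, h1, h4]
  congr 2
  linarith

end Pool.Agent.H70.SD
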