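import Mathlib
import Pool.Agent.H74.FAC.Surf
import Pool.Agent.H70.SD.Fin

open Manifold MeasureTheory
open scoped ENNReal

namespace Pool.Agent.H70.SD.SlitDoubleOld

open Pool.Agent.H74.Surf Pool.Agent.H70.SD

/-- **Filling area inequality for the conformal types given by circular slit discs (every genus).**
Let `M` be a compact smooth Riemannian surface that isometrically fills the circle of length `2π`
by `φ`, and let `D` be the double of `M`: two copies of `M`, the boundary point `φ t` of one being
glued to the boundary point `φ (t + π)` of the other, with its antipodal map `flip` that exchanges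
the copies. Suppose that the unit disc minus a set `S` of circular slits (`S` lies on finitely many
circles `‖z‖ = r`, `0 < r < 1`) is mapped to `D` by `F`, continuously up to the boundary and with
conformal factor `lam` whose square has integral at most the area of `M`, so that the boundary
values at the points `z` and `-z` of the unit circle, and on either side of the slits, are
antipodal, or at least at distance `≥ π`. Then the area of `M` is at least `2π`. -/
theorem result (M : Type) [MetricSpace M] [CompactSpace M] [ChartedSpace (EuclideanHalfSpace 2) M]
    [RiemannianSpace (𝓡∂ 2) M] (φ : S1 → M) (hφ : IsometricFilling (𝓡∂ 2) φ)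
    (S : Set ℂ) (F : ℂ → M × Bool) (lam : ℂ → ℝ≥0∞) (h : SlitDisc φ S F lam)
    (harea : ∫⁻ z in Metric.ball (0 : ℂ) 1, lam z ^ 2 ≤ area M) :
    ENNReal.ofReal (2 * Real.pi) ≤ area M :=
  (slit_double hφ.dist_eq h).trans harea

end Pool.Agent.H70.SD.SlitDoubleOld
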