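import Mathlib

/-!
# Slit disc parametrisations of the double of a filling: definitions
-/

open MeasureTheory Set Filter Topology
open scoped ENNReal

noncomputable section

namespace Pool.Agent.H70.SD

/-- The circle of length `2π`. -/
abbrev C1 : Type := AddCircle (2 * Real.pi)

/-- The distance of the double of `M`: the surface obtained from two copies `M × {false}` and
`M × {true}` of `M` by gluing the point `φ t` of the boundary of each copy to the point `φ (t + π)`
of the boundary of the other copy. -/
def doubleDist {M : Type} [MetricSpace M] (φ : C1 → M) (p q : M × Bool) : ℝ :=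
  if p.2 = q.2 then dist p.1 q.1
  else ⨅ t : C1, (dist p.1 (φ t) + dist (φ (t + (Real.pi : ℝ))) q.1)

/-- The antipodal map of the double exchanges the two copies of `M`. -/
def flip {M : Type} (p : M × Bool) : M × Bool := (p.1, !p.2)

/-- `F w` tends to the point `p` of the double when `w` tends to `z` in `A`. -/
def Lim {M : Type} [MetricSpace M] (φ : C1 → M) (F : ℂ → M × Bool) (A : Set ℂ) (z : ℂ)
    (p : M × Bool) : Prop :=
  Tendsto (fun w => doubleDist φ (F w) p) (𝓝[A] z) (𝓝 0)

/-- The points `p` and `q` of the double are antipodal, or (more generally) their distance is at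
least `π`. -/
def Opposite {M : Type} [MetricSpace M] (φ : C1 → M) (p q : M × Bool) : Prop :=
  doubleDist φ q (flip p) = 0 ∨ Real.pi ≤ doubleDist φ p q

/-- `F` is a weakly conformal parametrisation, with conformal factor `lam`, by the unit disc with
circular slits `S`, of a part of the double of `M` (the main case is a fundamental domain of the
antipodal map), such that the boundary points with opposite parameters are opposite. -/
structure SlitDisc {M : Type} [MetricSpace M] (φ : C1 → M) (S : Set ℂ) (F : ℂ → M × Bool)
    (lam : ℂ → ℝ≥0∞) : Prop where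
  /-- the slits are contained in finitely many circles `‖z‖ = r` -/
  circles : ((fun z : ℂ => ‖z‖) '' S).Finite
  /-- with `0 < r < 1` -/
  inside : ∀ z ∈ S, 0 < ‖z‖ ∧ ‖z‖ < 1
  /-- `F` is continuous on the closed disc without the slits -/
  cont : ∀ z, ‖z‖ ≤ 1 → z ∉ S → Lim φ F ({w | ‖w‖ ≤ 1} \ S) z (F z)
  /-- for a point `z` of a slit, the limits from the inner side at `z` and `-z` are opposite -/
  inner : ∀ z ∈ S, ∃ p q, Lim φ F {w | ‖w‖ < ‖z‖} z p ∧ Lim φ F {w | ‖w‖ < ‖z‖} (-z) q ∧
    Opposite φ p q
  /-- for a point `z` of a slit, the limits from the outer side at `z` and `-z` are opposite -/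
  outer : ∀ z ∈ S, ∃ p q, Lim φ F {w | ‖z‖ < ‖w‖} z p ∧ Lim φ F {w | ‖z‖ < ‖w‖} (-z) q ∧
    Opposite φ p q
  /-- opposite points of the unit circle go to opposite points -/
  circle : ∀ z, ‖z‖ = 1 → Opposite φ (F z) (F (-z))
  meas : Measurable lam
  /-- the distance of the end points of the image of a path is at most its length for the metric
  `lam |dz|` -/
  length : ∀ (γ γ' : ℝ → ℂ) (a b : ℝ), a ≤ b → (∀ t ∈ Icc a b, HasDerivAt γ (γ' t) t) →
    ContinuousOn γ' (Icc a b) → (∀ t ∈ Icc a b, ‖γ t‖ < 1 ∧ γ t ∉ S) →
    ENNReal.ofReal (doubleDist φ (F (γ a)) (F (γ b))) ≤ ∫⁻ t in Icc a b, lam (γ t) * ‖γ' t‖ₑ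

end Pool.Agent.H70.SD
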